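import Pool.Agent.TG.CoreS

/-!
# Specialisations of graded algebras: definitions

Project TSP (MP_95779f_al).  `V` is a discrete valuation ring, `R` a commutative `V`-algebra which is
a finite free `V`-module, `ϖ = algebraMap V R π`, `A = R / (ϖ)`.
-/

set_option autoImplicit false

noncomputable section

universe u

namespace Pool.Agent.TSP

section Co

variable (V R Q : Type u) [CommRing V] [CommRing R] [Algebra V R] [AddCommGroup Q] [Module V Q]

/-- `Hom_V(R, Q)` as an `R`-module by `(a φ)(x) = φ(a x)`. -/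
def Co : Type u := R →ₗ[V] Q

instance : AddCommGroup (Co V R Q) := inferInstanceAs (AddCommGroup (R →ₗ[V] Q))

variable {V R Q}

/-- The linear map. -/
def Co.fn (φ : Co V R Q) : R →ₗ[V] Q := φ

/-- The element of `Co` given by a linear map. -/
def Co.mk (φ : R →ₗ[V] Q) : Co V R Q := φ

@[simp] theorem Co.fn_mk (φ : R →ₗ[V] Q) : Co.fn (Co.mk φ) = φ := rfl

@[ext] theorem Co.ext {φ ψ : Co V R Q} (h : ∀ v, Co.fn φ v = Co.fn ψ v) : φ = ψ :=
  LinearMap.ext h

@[simp] theorem Co.fn_add (φ ψ : Co V R Q) (v : R) : Co.fn (φ + ψ) v = Co.fn φ v + Co.fn ψ v := rfl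

@[simp] theorem Co.fn_sub (φ ψ : Co V R Q) (v : R) : Co.fn (φ - ψ) v = Co.fn φ v - Co.fn ψ v := rfl

@[simp] theorem Co.fn_neg (φ : Co V R Q) (v : R) : Co.fn (-φ) v = -Co.fn φ v := rfl

@[simp] theorem Co.fn_zero (v : R) : Co.fn (0 : Co V R Q) v = 0 := rfl

instance : Module R (Co V R Q) where
  smul a φ := Co.mk ((Co.fn φ).comp (LinearMap.mulLeft V a))
  one_smul φ := Co.ext (fun m => congrArg (Co.fn φ) (one_mul m))
  mul_smul a b φ := by
    refine Co.ext (fun m => congrArg (Co.fn φ) ?_)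
    change (a * b) * m = b * (a * m)
    ring
  smul_zero a := Co.ext (fun m => rfl)
  smul_add a φ ψ := Co.ext (fun m => rfl)
  add_smul a b φ := by
    refine Co.ext (fun m => ?_)
    refine (congrArg (Co.fn φ) (add_mul a b m)).trans ?_
    exact map_add _ _ _
  zero_smul φ := by
    refine Co.ext (fun m => ?_)
    refine (congrArg (Co.fn φ) (zero_mul m)).trans ?_
    exact map_zero _

@[simp] theorem Co.fn_smul (a : R) (φ : Co V R Q) (m : R) : Co.fn (a • φ) m = Co.fn φ (a * m) := rfl

end Co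

section Red

variable {R : Type u} [CommRing R] (ϖ : R)

/-- `q : W → W'` is the reduction modulo `ϖ` of the `R`-module `W`; `W'` is a module over
`R / (ϖ)`. -/
structure IsRed {W W' : Type u} [AddCommGroup W] [Module R W] [AddCommGroup W']
    [Module (R ⧸ Ideal.span {ϖ}) W'] (q : W → W') : Prop where
  add : ∀ x y, q (x + y) = q x + q y
  smul : ∀ (r : R) x, q (r • x) = Ideal.Quotient.mk (Ideal.span {ϖ}) r • q x
  surj : Function.Surjective q
  ker : ∀ x, q x = 0 ↔ ∃ y, x = ϖ • y

/-- `ϖ` is a nonzero divisor on `W`. -/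
def Reg (W : Type u) [AddCommGroup W] [Module R W] : Prop := ∀ x : W, ϖ • x = 0 → x = 0

end Red

/-- Every `R`-linear map from a finitely generated module to the `R`-algebra `S` is a combination
(with coefficients in `S`) of linear maps to `R`. -/
def Star (R S : Type u) [CommRing R] [CommRing S] [Algebra R S] : Prop :=
  ∀ (N : Type u) [AddCommGroup N] [Module R N] [Module.Finite R N] (g : N →ₗ[R] S),
    ∃ (m : ℕ) (s : Fin m → S) (f : Fin m → (N →ₗ[R] R)),
      ∀ x, g x = ∑ j, s j * algebraMap R S (f j x)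

/-- `Ext^i_B(M, B) = 0` for `1 ≤ i ≤ q`. -/
def VanE (B M : Type u) [CommRing B] [AddCommGroup M] [Module B M] (q : ℕ) : Prop :=
  ∀ i : ℕ, 1 ≤ i → i ≤ q →
    Subsingleton (CategoryTheory.Abelian.Ext.{u} (ModuleCat.of B M) (ModuleCat.of B B) i)

/-- Every linear map from the submodule `N` of `B^n` to `B` extends to `B^n`. -/
def ExtP (B : Type u) [CommRing B] {n : ℕ} (N : Submodule B (Fin n → B)) : Prop :=
  ∀ f : N →ₗ[B] B, ∃ g : (Fin n → B) →ₗ[B] B, ∀ x : N, g x = f x

end Pool.Agent.TSP
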