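import Pool.Agent.TSP.Qf
import Pool.Agent.TSP.Defs

/-!
# TSP-COI: the injective module `E = Hom_V(A, V / (π))` over `A = R / (ϖ)`, `ϖ = algebraMap V R π`

PLAN.  `coi_inj`: given an injective `A`-linear `i : X → Y` and `f : X → E` (`E = Co V A (V ⧸ π)`),
make `X` and `Y` `V`-modules with `Module.compHom X (algebraMap V A)` (as in
`Pool/Agent/TG/Inj.lean`, `dual_inj`); they are killed by `π` (its image in `A` is `0`).  The
`V`-linear map `x ↦ Co.fn (f x) 1` extends to `g : Y → V ⧸ π` (`qf`); put
`h y = Co.mk (a ↦ g (a • y))`.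

Let `b` be a `V`-basis of `R` (`Module.finBasis V R`).  The coordinate functionals
`R → V → V ⧸ π` vanish on `(ϖ)`, so give `φ_k : A →ₗ[V] V ⧸ π` with `φ_k (mk r) = mk (b.repr r k)`
(`Submodule.liftQ` / `Submodule.mapQ` after restricting scalars, or `Ideal.Quotient`-lift).
`coi_faith`: `φ_k a = 0` for all `k` gives `a = 0` (`a = mk r`, all coordinates of `r` are divisible
by `π`, so `r ∈ (ϖ)`); `(a • φ)(1) = φ a`.
`coi_end`: `λ φ = Co.fn (h φ) 1` is additive and `V`-linear for `(v φ) = algebraMap V A v • φ`;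
`φ = ∑ k, v_k φ_k` where `mk v_k = φ (mk (b k))`; so `λ φ = φ a` for `a = ∑ k, l_k • mk (b k)`,
`mk l_k = λ φ_k`, and `Co.fn (h φ) x = λ (x • φ) = φ (x * a)`.
`coi_fin`: the `φ_k` generate.
-/

set_option autoImplicit false

noncomputable section

universe u

namespace Pool.Agent.TSP

variable (V R : Type u) [CommRing V] [IsDomain V] [IsDiscreteValuationRing V] [CommRing R]
  [Algebra V R] (π : V)

/-- `A = R / (ϖ)` -/
abbrev Aq : Type u := R ⧸ Ideal.span {algebraMap V R π}

/-- `V / (π)` -/
abbrev Lq (V : Type u) [CommRing V] (π : V) : Type u := V ⧸ Ideal.span {π}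

private theorem pi_zero (v : V) : algebraMap V (Aq V R π) (π * v) = 0 := by
  rw [map_mul]
  have h : algebraMap V (Aq V R π) π = 0 :=
    Ideal.Quotient.eq_zero_iff_mem.2 (Ideal.subset_span rfl)
  rw [h, zero_mul]

theorem coi_inj (h0 : π ≠ 0) : Module.Injective (Aq V R π) (Co V (Aq V R π) (Lq V π)) := by
  refine ⟨fun X Y _ _ _ _ i hi f => ?_⟩
  letI mX : Module V X := Module.compHom X (algebraMap V (Aq V R π))
  letI mY : Module V Y := Module.compHom Y (algebraMap V (Aq V R π))
  haveI tX : IsScalarTower V (Aq V R π) X := IsScalarTower.of_algebraMap_smul (fun r x => rfl)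
  haveI tY : IsScalarTower V (Aq V R π) Y := IsScalarTower.of_algebraMap_smul (fun r x => rfl)
  have hkX : ∀ (c : V) (x : X), c • x = algebraMap V (Aq V R π) c • x := fun c x => rfl
  have hkY : ∀ (c : V) (y : Y), c • y = algebraMap V (Aq V R π) c • y := fun c y => rfl
  have hp : algebraMap V (Aq V R π) π = 0 := by simpa using pi_zero V R π 1
  let f1 : X →ₗ[V] (V ⧸ Ideal.span {π}) :=
    { toFun := fun x => Co.fn (f x) 1
      map_add' := fun x x' => by rw [map_add, Co.fn_add]
      map_smul' := fun c x => by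
        rw [hkX, map_smul, Co.fn_smul, ← Algebra.smul_def, map_smul, RingHom.id_apply] }
  obtain ⟨g, hg⟩ := qf V π h0 (X := X) (Y := Y) (fun x => by rw [hkX, hp, zero_smul])
    (fun y => by rw [hkY, hp, zero_smul]) (i.restrictScalars V) hi f1
  let h : Y →ₗ[Aq V R π] Co V (Aq V R π) (Lq V π) :=
    { toFun := fun y => Co.mk
        { toFun := fun a => g (a • y)
          map_add' := fun a b => by rw [add_smul, map_add]
          map_smul' := fun c a => by
            rw [RingHom.id_apply, ← map_smul, smul_assoc] }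
      map_add' := fun y y' => by
        refine Co.ext (fun m => ?_)
        change g (m • (y + y')) = g (m • y) + g (m • y')
        rw [smul_add, map_add]
      map_smul' := fun a y => by
        refine Co.ext (fun m => ?_)
        change g (m • (a • y)) = g ((a * m) • y)
        rw [smul_smul, mul_comm] }
  refine ⟨h, fun x => Co.ext (fun m => ?_)⟩
  change g (m • i x) = Co.fn (f x) m
  have h1 : m • i x = (i.restrictScalars V) (m • x) := by
    change _ = i (m • x)
    rw [map_smul]
  rw [h1, hg]
  change Co.fn (f (m • x)) 1 = _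
  rw [map_smul, Co.fn_smul, mul_one]

/-- the reduced coordinate functional -/
private def cf [Module.Finite V R] [Module.Free V R] (k : Fin (Module.finrank V R)) :
    Aq V R π →ₗ[V] Lq V π :=
  (((Ideal.span {algebraMap V R π}).restrictScalars V).liftQ
    ((Submodule.mkQ (Ideal.span {π})).comp ((Module.finBasis V R).coord k)) (by
      intro r hr
      rw [Submodule.restrictScalars_mem, Ideal.mem_span_singleton'] at hr
      obtain ⟨r', rfl⟩ := hr
      rw [LinearMap.mem_ker, LinearMap.comp_apply, mul_comm, ← Algebra.smul_def, map_smul]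
      refine (Submodule.Quotient.mk_eq_zero _).2 ?_
      rw [smul_eq_mul]
      exact Ideal.mul_mem_right _ _ (Ideal.subset_span rfl))).comp
    (Submodule.Quotient.restrictScalarsEquiv V (Ideal.span {algebraMap V R π})).symm.toLinearMap

private theorem cf_mk [Module.Finite V R] [Module.Free V R] (k : Fin (Module.finrank V R)) (r : R) :
    cf V R π k (Ideal.Quotient.mk _ r) = Ideal.Quotient.mk _ ((Module.finBasis V R).repr r k) := rfl

private theorem coi_rep [Module.Finite V R] [Module.Free V R] (φ : Co V (Aq V R π) (Lq V π)) :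
    ∃ v : Fin (Module.finrank V R) → V, (∀ k, Ideal.Quotient.mk (Ideal.span {π}) (v k) =
      Co.fn φ (Ideal.Quotient.mk _ (Module.finBasis V R k))) ∧
      φ = ∑ k, algebraMap V (Aq V R π) (v k) • Co.mk (cf V R π k) := by
  choose v hv using fun k => Ideal.Quotient.mk_surjective (I := Ideal.span {π})
    (Co.fn φ (Ideal.Quotient.mk _ (Module.finBasis V R k)))
  refine ⟨v, hv, Co.ext (fun a => ?_)⟩
  obtain ⟨r, rfl⟩ := Ideal.Quotient.mk_surjective a
  have hsum : ∀ (s : Finset (Fin (Module.finrank V R)))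
      (ψ : Fin (Module.finrank V R) → Co V (Aq V R π) (Lq V π)) (x : Aq V R π),
      Co.fn (∑ k ∈ s, ψ k) x = ∑ k ∈ s, Co.fn (ψ k) x := by
    classical
    intro s ψ x
    induction s using Finset.induction_on with
    | empty => simp
    | insert a s ha ih => rw [Finset.sum_insert ha, Finset.sum_insert ha, Co.fn_add, ih]
  rw [hsum]
  have h1 : (Ideal.Quotient.mk (Ideal.span {algebraMap V R π}) r : Aq V R π) =
      ∑ k, (Module.finBasis V R).repr r k •
        (Ideal.Quotient.mk (Ideal.span {algebraMap V R π}) (Module.finBasis V R k) : Aq V R π) := by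
    conv_lhs => rw [← (Module.finBasis V R).sum_repr r, map_sum]
    rfl
  conv_lhs => rw [h1, map_sum]
  refine Finset.sum_congr rfl fun k _ => ?_
  rw [map_smul, ← hv, Co.fn_smul, Co.fn_mk, ← Algebra.smul_def, map_smul, cf_mk]
  change (Ideal.Quotient.mk (Ideal.span {π})) ((Module.finBasis V R).repr r k * v k) =
    (Ideal.Quotient.mk (Ideal.span {π})) (v k * (Module.finBasis V R).repr r k)
  rw [mul_comm]

theorem coi_faith [Module.Finite V R] [Module.Free V R] (a : Aq V R π)
    (ha : ∀ φ : Co V (Aq V R π) (Lq V π), a • φ = 0) : a = 0 := by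
  obtain ⟨r, rfl⟩ := Ideal.Quotient.mk_surjective a
  have h1 : ∀ k, ∃ c, π * c = (Module.finBasis V R).repr r k := by
    intro k
    have h2 := congrArg (fun φ => Co.fn φ 1) (ha (Co.mk (cf V R π k)))
    simp only [Co.fn_smul, Co.fn_mk, mul_one, Co.fn_zero] at h2
    rw [cf_mk, Ideal.Quotient.eq_zero_iff_mem, Ideal.mem_span_singleton'] at h2
    obtain ⟨c, hc⟩ := h2
    exact ⟨c, by rw [mul_comm, hc]⟩
  choose c hc using h1
  refine Ideal.Quotient.eq_zero_iff_mem.2 ?_
  rw [← (Module.finBasis V R).sum_repr r]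
  refine Ideal.sum_mem _ fun k _ => ?_
  rw [← hc, mul_smul, Algebra.smul_def π]
  exact Ideal.mul_mem_right _ _ (Ideal.subset_span rfl)

theorem coi_end [Module.Finite V R] [Module.Free V R]
    (h : Co V (Aq V R π) (Lq V π) →ₗ[Aq V R π] Co V (Aq V R π) (Lq V π)) :
    ∃ a : Aq V R π, ∀ φ, h φ = a • φ := by
  choose l hl using fun k => Ideal.Quotient.mk_surjective (I := Ideal.span {π})
    (Co.fn (h (Co.mk (cf V R π k))) 1)
  have hsum : ∀ (s : Finset (Fin (Module.finrank V R)))
      (ψ : Fin (Module.finrank V R) → Co V (Aq V R π) (Lq V π)) (x : Aq V R π),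
      Co.fn (∑ k ∈ s, ψ k) x = ∑ k ∈ s, Co.fn (ψ k) x := by
    classical
    intro s ψ x
    induction s using Finset.induction_on with
    | empty => simp
    | insert a s ha ih => rw [Finset.sum_insert ha, Finset.sum_insert ha, Co.fn_add, ih]
  have key : ∀ φ : Co V (Aq V R π) (Lq V π), Co.fn (h φ) 1 = Co.fn φ
      (∑ k, l k • (Ideal.Quotient.mk (Ideal.span {algebraMap V R π}) (Module.finBasis V R k) :
        Aq V R π)) := by
    intro φ
    obtain ⟨v, hv1, hv2⟩ := coi_rep V R π φ
    conv_lhs => rw [hv2, map_sum, hsum]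
    rw [map_sum]
    refine Finset.sum_congr rfl fun k _ => ?_
    rw [map_smul, Co.fn_smul, ← Algebra.smul_def, map_smul, ← hl, map_smul, ← hv1]
    change (Ideal.Quotient.mk (Ideal.span {π})) (v k * l k) =
      (Ideal.Quotient.mk (Ideal.span {π})) (l k * v k)
    rw [mul_comm]
  refine ⟨∑ k, l k • (Ideal.Quotient.mk (Ideal.span {algebraMap V R π}) (Module.finBasis V R k) :
        Aq V R π), fun φ => Co.ext (fun x => ?_)⟩
  have h1 : Co.fn (h φ) x = Co.fn (h (x • φ)) 1 := by
    rw [map_smul, Co.fn_smul, mul_one]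
  rw [h1, key, Co.fn_smul, Co.fn_smul, mul_comm]

theorem coi_fin [Module.Finite V R] [Module.Free V R] :
    Module.Finite (Aq V R π) (Co V (Aq V R π) (Lq V π)) := by
  refine Module.Finite.of_surjective
    (Fintype.linearCombination (Aq V R π) (fun k => Co.mk (cf V R π k))) fun φ => ?_
  obtain ⟨v, hv1, hv2⟩ := coi_rep V R π φ
  exact ⟨fun k => algebraMap V (Aq V R π) (v k), hv2.symm⟩

end Pool.Agent.TSP
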