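import Pool.Agent.TSP.Defs

/-!
# TSP-DUAL: base change of the dualizing module

PLAN.  `gen φ : L ⊗[V] R → L` is `c ⊗ r ↦ c * algebraMap V L (φ r)` (it is defined below).
`Θ (b ⊗ φ) = (x ↦ gen φ (ι (b * x)))`; `TensorProduct.AlgebraTensorModule.lift` or
`TensorProduct.liftAddHom` (balanced over `R`: `gen (r • φ) y = gen φ ((1 ⊗ r) * y)` and
`(1 ⊗ r) * ι (b * x) = ι (P (1 ⊗ r) * (b * x))`), `B`-linear.
Inverse: let `b k` be a `V`-basis of `R` (`Module.finBasis V R` or `Module.Free.chooseBasis`), `φ k`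
the dual basis of `Co V R V`, `φ = ∑ k, algebraMap V R (φ (b k)) • φ k`;
`Ψ ψ = ∑ k, algebraMap L B (ψ (P (1 ⊗ b k))) ⊗ φ k`.
`Θ (Ψ ψ) = ψ`: `y = ∑ k, gen (φ k) y • (1 ⊗ b k)` for all `y : L ⊗[V] R`, so
`ψ (P y) = ∑ k, gen (φ k) y * ψ (P (1 ⊗ b k))`; take `y = ι x`.
`Ψ (Θ (b ⊗ φ)) = b ⊗ φ`: for `ι b = ∑ j, l j ⊗ b j` one has
`Θ (b ⊗ φ) (P (1 ⊗ b k)) = gen φ ((1 ⊗ b k) * ι b) = ∑ j, l j * φ (b k * b j)`, so
`Ψ (Θ (b ⊗ φ)) = ∑ j, algebraMap L B (l j) ⊗ (b j • φ) = (∑ j, P (l j ⊗ b j)) ⊗ φ = P (ι b) ⊗ φ`.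
It is enough to prove that `Θ` is bijective with this formula for `Θ (1 ⊗ φ)`.
-/

set_option autoImplicit false

noncomputable section

universe u

namespace Pool.Agent.TSP

open TensorProduct

variable {V R L B : Type u} [CommRing V] [CommRing R]
  [Algebra V R] [Field L] [Algebra V L] [CommRing B]
  [Algebra L B] [Algebra R B]

variable (L) in
/-- The `L`-linear functional on `L ⊗[V] R` given by `φ : R → V`. -/
def gen (φ : Co V R V) : L ⊗[V] R →ₗ[L] L :=
  TensorProduct.AlgebraTensorModule.lift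
    { toFun := fun c => c • ((Algebra.linearMap V L).comp (Co.fn φ))
      map_add' := fun c d => add_smul c d _
      map_smul' := fun c d => by
        rw [smul_eq_mul, mul_smul]
        rfl }

@[simp] theorem gen_tmul (φ : Co V R V) (c : L) (r : R) :
    gen L φ (c ⊗ₜ r) = c * algebraMap V L (Co.fn φ r) := rfl

section aux

theorem gen_smul (r : R) (φ : Co V R V) (y : L ⊗[V] R) :
    gen L (r • φ) y = gen L φ ((1 ⊗ₜ r) * y) := by
  induction y using TensorProduct.induction_on with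
  | zero => simp
  | tmul c s => 
    rw [gen_tmul, Algebra.TensorProduct.tmul_mul_tmul, gen_tmul, Co.fn_smul, one_mul]
  | add x y hx hy => rw [map_add, hx, hy, mul_add, map_add]

theorem gen_add (φ ψ : Co V R V) (y : L ⊗[V] R) :
    gen L (φ + ψ) y = gen L φ y + gen L ψ y := by
  induction y using TensorProduct.induction_on with
  | zero => simp
  | tmul c s => 
    rw [gen_tmul, gen_tmul, gen_tmul, Co.fn_add, map_add, mul_add]
  | add x y hx hy => rw [map_add, hx, hy, map_add, map_add]; ring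

theorem Co.fn_sum {κ : Type*} (s : Finset κ) (f : κ → Co V R V) (v : R) :
    Co.fn (∑ k ∈ s, f k) v = ∑ k ∈ s, Co.fn (f k) v := by
  classical
  induction s using Finset.induction_on with
  | empty => simp
  | insert a s ha ih => rw [Finset.sum_insert ha, Finset.sum_insert ha, Co.fn_add, ih]

theorem Du.fn_sum {κ : Type*} (s : Finset κ) (f : κ → TG.Du L B) (v : B) :
    TG.Du.fn (∑ k ∈ s, f k) v = ∑ k ∈ s, TG.Du.fn (f k) v := by
  classical
  induction s using Finset.induction_on with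
  | empty => simp
  | insert a s ha ih => rw [Finset.sum_insert ha, Finset.sum_insert ha, TG.Du.fn_add, ih]

theorem dual_expand {κ : Type*} [Fintype κ] (b : Module.Basis κ V R) (φ : Co V R V) :
    φ = ∑ k, algebraMap V R (Co.fn φ (b k)) • (Co.mk (b.coord k) : Co V R V) := by
  refine Co.ext (fun m => ?_)
  rw [Co.fn_sum]
  conv_lhs => rw [← b.sum_repr m, map_sum]
  refine Finset.sum_congr rfl (fun k _ => ?_)
  rw [Co.fn_smul, ← Algebra.smul_def, map_smul, map_smul, Co.fn_mk, Module.Basis.coord_apply,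
    smul_eq_mul, smul_eq_mul, mul_comm]

theorem ten_expand {κ : Type*} [Fintype κ] (b : Module.Basis κ V R) (y : L ⊗[V] R) :
    y = ∑ k, gen L (Co.mk (b.coord k) : Co V R V) y ⊗ₜ[V] b k := by
  induction y using TensorProduct.induction_on with
  | zero => simp
  | tmul c s =>
    conv_lhs => rw [← b.sum_repr s, TensorProduct.tmul_sum]
    refine Finset.sum_congr rfl (fun k _ => ?_)
    rw [gen_tmul, Co.fn_mk, Module.Basis.coord_apply, TensorProduct.tmul_smul,
      TensorProduct.smul_tmul', Algebra.smul_def, mul_comm]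
  | add x y hx hy =>
    conv_lhs => rw [hx, hy]
    rw [← Finset.sum_add_distrib]
    refine Finset.sum_congr rfl (fun k _ => ?_)
    rw [map_add, TensorProduct.add_tmul]

theorem alg_compat (P : L ⊗[V] R →ₐ[L] B) (hr : ∀ r : R, algebraMap R B r = P (1 ⊗ₜ r)) (v : V) :
    algebraMap L B (algebraMap V L v) = algebraMap R B (algebraMap V R v) := by
  rw [hr, Algebra.algebraMap_eq_smul_one (R := V) (A := R), TensorProduct.tmul_smul,
    TensorProduct.smul_tmul', ← Algebra.algebraMap_eq_smul_one]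
  rw [← P.commutes]
  rfl

end aux

theorem dualB [Module.Finite V R] [Module.Free V R] (P : L ⊗[V] R →ₐ[L] B)
    (ι : B →ₗ[L] L ⊗[V] R) (hP : ∀ b, P (ι b) = b) (hι : ∀ s b, s * ι b = ι (P s * b))
    (hr : ∀ r : R, algebraMap R B r = P (1 ⊗ₜ r)) :
    ∃ Θ : (B ⊗[R] Co V R V) ≃ₗ[B] TG.Du L B, ∀ (φ : Co V R V) (x : B),
      TG.Du.fn (Θ (1 ⊗ₜ φ)) x = gen L φ (ι x) := by
  classical
  let iM : Module R (TG.Du L B) := Module.compHom (TG.Du L B) (algebraMap R B)
  have hM : ∀ (r : R) (ψ : TG.Du L B), r • ψ = algebraMap R B r • ψ := fun r ψ => rfl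
  have iT : IsScalarTower R B (TG.Du L B) :=
    ⟨fun r b ψ => by rw [hM, Algebra.smul_def, mul_smul]⟩
  let h1 : Co V R V →ₗ[R] TG.Du L B :=
    { toFun := fun φ => TG.Du.mk ((gen L φ).comp ι)
      map_add' := fun φ ψ => TG.Du.ext (fun x => by
        simp only [TG.Du.fn_mk, TG.Du.fn_add, LinearMap.comp_apply]
        exact gen_add φ ψ (ι x))
      map_smul' := fun r φ => TG.Du.ext (fun x => by
        rw [RingHom.id_apply, hM]
        simp only [TG.Du.fn_mk, TG.Du.fn_asmul, LinearMap.comp_apply]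
        rw [gen_smul, hι, smul_eq_mul, hr]) }
  have h1v : ∀ φ x, TG.Du.fn (h1 φ) x = gen L φ (ι x) := fun φ x => rfl
  let Θ : (B ⊗[R] Co V R V) →ₗ[B] TG.Du L B := LinearMap.liftBaseChange B h1
  have hΘ : ∀ (b : B) (φ : Co V R V) (x : B), TG.Du.fn (Θ (b ⊗ₜ φ)) x = gen L φ (ι (b * x)) := by
    intro b φ x
    change TG.Du.fn (LinearMap.liftBaseChange B h1 (b ⊗ₜ φ)) x = _
    rw [LinearMap.liftBaseChange_tmul, TG.Du.fn_asmul, h1v, smul_eq_mul]
  let κ := Module.Free.ChooseBasisIndex V R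
  let b : Module.Basis κ V R := Module.Free.chooseBasis V R
  let e : κ → Co V R V := fun k => Co.mk (b.coord k)
  let Ψ : TG.Du L B →+ B ⊗[R] Co V R V :=
    { toFun := fun ψ => ∑ k, algebraMap L B (TG.Du.fn ψ (P (1 ⊗ₜ b k))) ⊗ₜ[R] e k
      map_zero' := by simp
      map_add' := fun ψ ψ' => by
        rw [← Finset.sum_add_distrib]
        refine Finset.sum_congr rfl (fun k _ => ?_)
        rw [TG.Du.fn_add, map_add, TensorProduct.add_tmul] }
  have hΨ : ∀ ψ, Ψ ψ = ∑ k, algebraMap L B (TG.Du.fn ψ (P (1 ⊗ₜ b k))) ⊗ₜ[R] e k := fun ψ => rfl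
  have hLR : ∀ t, Ψ (Θ t) = t := by
    intro t
    induction t using TensorProduct.induction_on with
    | zero => rw [map_zero, map_zero]
    | add x y hx hy => rw [map_add, map_add, hx, hy]
    | tmul c φ =>
      rw [hΨ]
      have e1 : ∀ k, TG.Du.fn (Θ (c ⊗ₜ φ)) (P (1 ⊗ₜ b k)) =
          ∑ j, gen L (e j) (ι c) * algebraMap V L (Co.fn φ (b k * b j)) := by
        intro k
        rw [hΘ, mul_comm, ← hι]
        conv_lhs => rw [ten_expand b (ι c), Finset.mul_sum, map_sum]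
        refine Finset.sum_congr rfl (fun j _ => ?_)
        rw [Algebra.TensorProduct.tmul_mul_tmul, gen_tmul, one_mul]
      have e2 : ∀ k, algebraMap L B (TG.Du.fn (Θ (c ⊗ₜ φ)) (P (1 ⊗ₜ b k))) ⊗ₜ[R] e k =
          ∑ j, algebraMap L B (gen L (e j) (ι c)) ⊗ₜ[R]
            (algebraMap V R (Co.fn (b j • φ) (b k)) • e k) := by
        intro k
        rw [e1, map_sum, TensorProduct.sum_tmul]
        refine Finset.sum_congr rfl (fun j _ => ?_)
        rw [map_mul, alg_compat P hr, TensorProduct.tmul_smul, TensorProduct.smul_tmul',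
          Algebra.smul_def, Co.fn_smul, mul_comm (b j) (b k), mul_comm]
      rw [Finset.sum_congr rfl (fun k _ => e2 k), Finset.sum_comm]
      have e3 : ∀ j, ∑ k, algebraMap L B (gen L (e j) (ι c)) ⊗ₜ[R]
            (algebraMap V R (Co.fn (b j • φ) (b k)) • e k) =
          P (gen L (e j) (ι c) ⊗ₜ[V] b j) ⊗ₜ[R] φ := by
        intro j
        rw [← TensorProduct.tmul_sum, ← dual_expand b (b j • φ), TensorProduct.tmul_smul,
          TensorProduct.smul_tmul', Algebra.smul_def, hr]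
        congr 1
        have : gen L (e j) (ι c) ⊗ₜ[V] b j = gen L (e j) (ι c) • ((1 : L) ⊗ₜ[V] b j) := by
          rw [TensorProduct.smul_tmul', smul_eq_mul, mul_one]
        rw [this, map_smul, Algebra.smul_def, mul_comm]
      rw [Finset.sum_congr rfl (fun j _ => e3 j), ← TensorProduct.sum_tmul, ← map_sum,
        ← ten_expand b (ι c), hP]
  have hRL : ∀ ψ, Θ (Ψ ψ) = ψ := by
    intro ψ
    refine TG.Du.ext (fun x => ?_)
    rw [hΨ, map_sum, Du.fn_sum]
    have e1 : ∀ k, TG.Du.fn (Θ (algebraMap L B (TG.Du.fn ψ (P (1 ⊗ₜ b k))) ⊗ₜ[R] e k)) x =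
        gen L (e k) (ι x) * TG.Du.fn ψ (P (1 ⊗ₜ b k)) := by
      intro k
      rw [hΘ, ← Algebra.smul_def, map_smul, map_smul, smul_eq_mul, mul_comm]
    rw [Finset.sum_congr rfl (fun k _ => e1 k)]
    conv_rhs => rw [← hP x, ten_expand b (ι x), map_sum, map_sum]
    refine Finset.sum_congr rfl (fun k _ => ?_)
    have : gen L (Co.mk (b.coord k) : Co V R V) (ι x) ⊗ₜ[V] b k =
        gen L (e k) (ι x) • ((1 : L) ⊗ₜ[V] b k) := by
      rw [TensorProduct.smul_tmul', smul_eq_mul, mul_one]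
    rw [this, map_smul, map_smul, smul_eq_mul]
  refine ⟨LinearEquiv.ofBijective Θ ⟨Function.LeftInverse.injective hLR,
    Function.RightInverse.surjective hRL⟩, fun φ x => ?_⟩
  change TG.Du.fn (Θ (1 ⊗ₜ φ)) x = _
  rw [hΘ, one_mul]

end Pool.Agent.TSP
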