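import Pool.Agent.TSP.Defs
import Pool.Agent.TG.Les

/-!
# TSP-EXTS: dimension shifting

PLAN.  `van_down`: `TG.les_extend` and `TG.les_left`, `TG.ext_proj` (file `Pool/Agent/TG/Les.lean`)
for the exact sequence `0 → ker p → B^n → M → 0`, `f = (ker p).subtype`, `g = p`,
`LinearMap.range = ker`: `Submodule.range_subtype`.
`ext_one`: an element of `Ext^1(Z, B)` goes to `0` in `Ext^1(Y, B)` (`Y` projective), so by
`Abelian.Ext.contravariant_sequence_exact₃` it is the image `(extClass).comp (mk₀ φ)` of some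
`φ : X → B`; `φ` extends to `ψ : Y → B` and `extClass.comp (mk₀ f) = 0`
(`ShortComplex.ShortExact.extClass_comp` / `comp_extClass`), so it is `0`.  `ext_succ`: the same
exact sequence in degree `i + 1`, `Ext^i(X, B) = 0` and `Ext^(i+1)(Y, B) = 0`.
-/

set_option autoImplicit false

noncomputable section

universe u

namespace Pool.Agent.TSP

open CategoryTheory

variable {B : Type u} [CommRing B]

theorem van_down {M : Type u} [AddCommGroup M] [Module B M] {n : ℕ} (p : (Fin n → B) →ₗ[B] M)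
    (hp : Function.Surjective p) (q : ℕ) (h : VanE B M (q + 1)) :
    ExtP B (LinearMap.ker p) ∧ VanE B (LinearMap.ker p) q := by
  have hfg : LinearMap.range (LinearMap.ker p).subtype = LinearMap.ker p :=
    Submodule.range_subtype _
  have hf : Function.Injective (LinearMap.ker p).subtype := Submodule.subtype_injective _
  refine ⟨fun f => ?_, fun i hi hq => ?_⟩
  · obtain ⟨ψ, hψ⟩ := TG.les_extend (LinearMap.ker p).subtype p hfg hf hp
      (h 1 le_rfl (by omega)) f
    exact ⟨ψ, fun x => hψ x⟩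
  · exact TG.les_left (LinearMap.ker p).subtype p hfg hf hp i (h (i + 1) (by omega) (by omega))
      (TG.ext_proj inferInstance i hi)

theorem ext_one {X Y Z : Type u} [AddCommGroup X] [Module B X] [AddCommGroup Y] [Module B Y]
    [AddCommGroup Z] [Module B Z] (hY : Module.Projective B Y) (f : X →ₗ[B] Y) (g : Y →ₗ[B] Z)
    (hfg : LinearMap.range f = LinearMap.ker g) (hf : Function.Injective f)
    (hg : Function.Surjective g) (h : ∀ φ : X →ₗ[B] B, ∃ ψ : Y →ₗ[B] B, ∀ x, ψ (f x) = φ x) :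
    Subsingleton (Abelian.Ext.{u} (ModuleCat.of B Z) (ModuleCat.of B B) 1) := by
  refine subsingleton_of_forall_eq 0 (fun x => ?_)
  have hE := TG.sc_exact f g hfg hf hg
  have h1 : Subsingleton (Abelian.Ext.{u} (ModuleCat.of B Y) (ModuleCat.of B B) 1) :=
    TG.ext_proj hY 1 le_rfl
  obtain ⟨x₂, hx⟩ := Abelian.Ext.contravariant_sequence_exact₃ hE
    (ModuleCat.of B B) x (@Subsingleton.elim _ h1 _ _) (n₀ := 0) rfl
  obtain ⟨q, rfl⟩ := Abelian.Ext.addEquiv₀.symm.surjective x₂
  obtain ⟨ψ, hψ⟩ := h q.hom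
  have h2 : q = (TG.sc f g hfg).f ≫ ModuleCat.ofHom ψ := by
    ext x
    exact (hψ x).symm
  rw [← hx, h2]
  rw [Abelian.Ext.addEquiv₀_symm_apply, ← Abelian.Ext.mk₀_comp_mk₀]
  exact hE.extClass_comp_assoc _

theorem ext_succ {X Y Z : Type u} [AddCommGroup X] [Module B X] [AddCommGroup Y] [Module B Y]
    [AddCommGroup Z] [Module B Z] (hY : Module.Projective B Y) (f : X →ₗ[B] Y) (g : Y →ₗ[B] Z)
    (hfg : LinearMap.range f = LinearMap.ker g) (hf : Function.Injective f)
    (hg : Function.Surjective g) (i : ℕ) (hi : 1 ≤ i)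
    (h : Subsingleton (Abelian.Ext.{u} (ModuleCat.of B X) (ModuleCat.of B B) i)) :
    Subsingleton (Abelian.Ext.{u} (ModuleCat.of B Z) (ModuleCat.of B B) (i + 1)) := by
  refine subsingleton_of_forall_eq 0 (fun x => ?_)
  have hE := TG.sc_exact f g hfg hf hg
  have h1 : Subsingleton (Abelian.Ext.{u} (ModuleCat.of B Y) (ModuleCat.of B B) (i + 1)) :=
    TG.ext_proj hY (i + 1) (by omega)
  obtain ⟨x₂, hx⟩ := Abelian.Ext.contravariant_sequence_exact₃ hE
    (ModuleCat.of B B) x (@Subsingleton.elim _ h1 _ _) (n₀ := i) (by omega)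
  have h3 : x₂ = 0 := @Subsingleton.elim _ h _ _
  rw [← hx, h3]
  simp
  rfl

end Pool.Agent.TSP
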