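import Pool.Agent.TSP.Defs

/-!
# TSP-FROB: symmetric forms on a faithful injective module
-/

set_option autoImplicit false

noncomputable section

universe u

namespace Pool.Agent.TSP

private theorem fr_inj {A E : Type u} [CommRing A] [AddCommGroup E] [Module A E] (m : Ideal A)
    (hm : m.IsMaximal) (w : E) (hw : w ≠ 0) (hmw : ∀ a ∈ m, a • w = 0) (a : A) (h : a • w = 0) :
    a ∈ m := by
  by_contra hc
  obtain ⟨y, i, hi, h1⟩ := hm.exists_inv hc
  apply hw
  have h2 : (y * a + i) • w = 0 := by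
    rw [add_smul, mul_smul, h, smul_zero, hmw i hi, add_zero]
  rw [h1, one_smul] at h2
  exact h2

private theorem fr_prop {A E : Type u} [CommRing A] [AddCommGroup E] [Module A E]
    (hend : ∀ h : E →ₗ[A] E, ∃ a : A, ∀ x, h x = a • x)
    (hfaith : ∀ a : A, (∀ x : E, a • x = 0) → a = 0)
    (hsym : ∀ (f : E →ₗ[A] A) (x y : E), f x • y = f y • x)
    (m : Ideal A) (hm : m.IsMaximal) (w : E) (hw : w ≠ 0) (hmw : ∀ a ∈ m, a • w = 0)
    (p q : E →ₗ[A] A ⧸ m) (x y : E) : p x * q y = p y * q x := by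
  have hker : m ≤ LinearMap.ker (LinearMap.toSpanSingleton A E w) := by
    intro a ha
    rw [LinearMap.mem_ker, LinearMap.toSpanSingleton_apply]
    exact hmw a ha
  obtain ⟨c, hc⟩ : ∃ c : (A ⧸ m) →ₗ[A] E, ∀ a : A, c (Ideal.Quotient.mk m a) = a • w :=
    ⟨Submodule.liftQ m (LinearMap.toSpanSingleton A E w) hker, fun a => rfl⟩
  have hci : ∀ t : A ⧸ m, c t = 0 → t = 0 := by
    intro t ht
    obtain ⟨a, rfl⟩ := Ideal.Quotient.mk_surjective t
    rw [hc] at ht
    exact Ideal.Quotient.eq_zero_iff_mem.2 (fr_inj m hm w hw hmw a ht)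
  have hT : ∀ x : E, ∃ a : A, ∀ y, c (p x * q y) = a • y := fun x =>
    hend (c.comp ((LinearMap.mulLeft A (p x)).comp q))
  choose g hg using hT
  have hfa : ∀ a b : A, (∀ y : E, a • y = b • y) → a = b := by
    intro a b hab
    refine sub_eq_zero.1 (hfaith _ fun y => ?_)
    rw [sub_smul, hab y, sub_self]
  obtain ⟨G, hG⟩ : ∃ G : E →ₗ[A] A, ∀ x, G x = g x := by
    refine ⟨{ toFun := g, map_add' := ?_, map_smul' := ?_ }, fun x => rfl⟩
    · intro x x'
      refine hfa _ _ fun y => ?_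
      rw [← hg, add_smul, ← hg, ← hg, map_add, add_mul, map_add]
    · intro a x
      refine hfa _ _ fun y => ?_
      rw [← hg, smul_eq_mul, RingHom.id_apply, mul_smul, ← hg, map_smul, smul_mul_assoc, map_smul]
  have h1 := hsym G x y
  rw [hG, hG, ← hg, ← hg] at h1
  have h2 : c (p x * q y - p y * q x) = 0 := by
    rw [map_sub, h1, sub_self]
  exact sub_eq_zero.1 (hci _ h2)

private theorem fr_gen {A E : Type u} [CommRing A] [AddCommGroup E] [Module A E] (m : Ideal A)
    (hm : m.IsMaximal) (h : ∀ (p q : E →ₗ[A] A ⧸ m) (x y : E), p x * q y = p y * q x) :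
    ∃ e : E, ∀ x : E, ∃ a : A, x - a • e ∈ m • (⊤ : Submodule A E) := by
  let _ := Ideal.Quotient.field m
  let b := Module.Basis.ofVectorSpace (A ⧸ m) (E ⧸ m • (⊤ : Submodule A E))
  have hsm : ∀ (a : A) (v : E ⧸ m • (⊤ : Submodule A E)), (Ideal.Quotient.mk m a) • v = a • v :=
    fun a v => rfl
  by_cases hne : Nonempty (Module.Basis.ofVectorSpaceIndex (A ⧸ m)
      (E ⧸ m • (⊤ : Submodule A E)))
  · obtain ⟨i⟩ := hne
    obtain ⟨e, he⟩ := Submodule.mkQ_surjective (m • (⊤ : Submodule A E)) (b i)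
    have hss : ∀ j, j = i := by
      intro j
      by_contra hj
      obtain ⟨e', he'⟩ := Submodule.mkQ_surjective (m • (⊤ : Submodule A E)) (b j)
      have h1 := h (((b.coord i).restrictScalars A).comp (m • (⊤ : Submodule A E)).mkQ)
        (((b.coord j).restrictScalars A).comp (m • (⊤ : Submodule A E)).mkQ) e e'
      rw [LinearMap.comp_apply, LinearMap.comp_apply, LinearMap.comp_apply, LinearMap.comp_apply,
        he, he'] at h1
      simp only [LinearMap.coe_restrictScalars, Module.Basis.coord_apply, Module.Basis.repr_self,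
        Finsupp.single_eq_same] at h1
      rw [Finsupp.single_eq_of_ne (fun h' => hj h'.symm), mul_one, zero_mul] at h1
      exact one_ne_zero h1
    refine ⟨e, fun x => ?_⟩
    obtain ⟨a, ha⟩ := Ideal.Quotient.mk_surjective
      (b.repr ((m • (⊤ : Submodule A E)).mkQ x) i)
    refine ⟨a, ?_⟩
    rw [← Submodule.ker_mkQ (m • (⊤ : Submodule A E)), LinearMap.mem_ker, map_sub, map_smul, he,
      ← hsm, ha]
    refine b.ext_elem fun j => ?_
    rw [hss j, map_sub, map_smul, Module.Basis.repr_self, map_zero, Finsupp.sub_apply,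
      Finsupp.smul_apply, Finsupp.single_eq_same, smul_eq_mul, mul_one, sub_self]
    rfl
  · refine ⟨0, fun x => ⟨0, ?_⟩⟩
    rw [smul_zero, sub_zero, ← Submodule.ker_mkQ (m • (⊤ : Submodule A E)), LinearMap.mem_ker]
    refine b.ext_elem fun j => ?_
    exact absurd ⟨j⟩ hne

theorem frob_max {A E : Type u} [CommRing A] [AddCommGroup E] [Module A E] [Module.Finite A E]
    (hend : ∀ h : E →ₗ[A] E, ∃ a : A, ∀ x, h x = a • x)
    (hfaith : ∀ a : A, (∀ x : E, a • x = 0) → a = 0)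
    (hsym : ∀ (f : E →ₗ[A] A) (x y : E), f x • y = f y • x)
    (m : Ideal A) (hm : m.IsMaximal) (w : E) (hw : w ≠ 0) (hmw : ∀ a ∈ m, a • w = 0) :
    ∃ (f : E →ₗ[A] A) (x : E), f x ∉ m := by
  obtain ⟨e, he⟩ := fr_gen m hm (fr_prop hend hfaith hsym m hm w hw hmw)
  obtain ⟨N, hN⟩ : ∃ N : Submodule A E, N = Submodule.span A {e} := ⟨_, rfl⟩
  have hle : (⊤ : Submodule A (E ⧸ N)) ≤ m • (⊤ : Submodule A (E ⧸ N)) := by
    intro z _
    obtain ⟨x, rfl⟩ := Submodule.mkQ_surjective N z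
    obtain ⟨a, ha⟩ := he x
    have h1 : N.mkQ x = N.mkQ (x - a • e) := by
      rw [map_sub, map_smul]
      have h2 : N.mkQ e = 0 := by
        rw [← LinearMap.mem_ker, Submodule.ker_mkQ, hN]
        exact Submodule.mem_span_singleton_self e
      rw [h2, smul_zero, sub_zero]
    rw [h1]
    have h3 : N.mkQ (x - a • e) ∈ (m • (⊤ : Submodule A E)).map N.mkQ :=
      Submodule.mem_map_of_mem ha
    rw [Submodule.map_smul''] at h3
    exact Submodule.smul_mono le_rfl le_top h3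
  obtain ⟨a, ha1, ha2⟩ := Submodule.exists_sub_one_mem_and_smul_eq_zero_of_fg_of_le_smul m
    (⊤ : Submodule A (E ⧸ N)) Module.Finite.fg_top hle
  have ha3 : ∀ x : E, ∃ c : A, a • x = c • e := by
    intro x
    have h1 := ha2 (N.mkQ x) Submodule.mem_top
    rw [← map_smul, ← LinearMap.mem_ker, Submodule.ker_mkQ, hN] at h1
    obtain ⟨c, hc⟩ := Submodule.mem_span_singleton.1 h1
    exact ⟨c, hc.symm⟩
  have hwd : ∀ c c' : A, c • e = c' • e → a * c = a * c' := by
    intro c c' h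
    refine sub_eq_zero.1 (hfaith _ fun x => ?_)
    obtain ⟨d, hd⟩ := ha3 x
    have h1 : (a * c - a * c') • x = (c - c') • (a • x) := by
      rw [smul_smul]
      congr 1
      ring
    rw [h1, hd, smul_comm, sub_smul, h, sub_self, smul_zero]
  choose c hc using ha3
  refine ⟨{ toFun := fun x => a * c x, map_add' := ?_, map_smul' := ?_ }, e, ?_⟩
  · intro x y
    rw [← mul_add]
    refine hwd _ _ ?_
    rw [← hc, add_smul, ← hc, ← hc, smul_add]
  · intro r x
    rw [RingHom.id_apply, smul_eq_mul, mul_left_comm]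
    refine hwd _ _ ?_
    rw [← hc, mul_smul, ← hc, smul_comm]
  · show a * c e ∉ m
    have h1 : a * c e = a * a := hwd _ _ (hc e).symm
    rw [h1]
    intro h2
    have h3 : a ∈ m := (hm.isPrime.mem_or_mem h2).elim id id
    apply hm.ne_top
    rw [Ideal.eq_top_iff_one]
    have h4 := m.sub_mem h3 ha1
    rw [sub_sub_cancel] at h4
    exact h4

theorem frob {A E : Type u} [CommRing A] [AddCommGroup E] [Module A E] [Module.Finite A E]
    (hinj : Module.Injective A E)
    (hend : ∀ h : E →ₗ[A] E, ∃ a : A, ∀ x, h x = a • x)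
    (hfaith : ∀ a : A, (∀ x : E, a • x = 0) → a = 0)
    (hsoc : ∀ m : Ideal A, m.IsMaximal → ∃ w : E, w ≠ 0 ∧ ∀ a ∈ m, a • w = 0)
    (hsym : ∀ (f : E →ₗ[A] A) (x y : E), f x • y = f y • x) : Module.Injective A A := by
  obtain ⟨I, hI⟩ : ∃ I : Ideal A, I = Ideal.span {a | ∃ (f : E →ₗ[A] A) (x : E), f x = a} :=
    ⟨_, rfl⟩
  have hcl : ∀ a ∈ I, ∀ ⦃X Y : Type u⦄ [AddCommGroup X] [AddCommGroup Y] [Module A X] [Module A Y]
      (i : X →ₗ[A] Y) (_ : Function.Injective i) (g : X →ₗ[A] A),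
      ∃ H : Y →ₗ[A] A, ∀ x, H (i x) = a * g x := by
    intro a ha X Y _ _ _ _ i hi g
    rw [hI] at ha
    refine Submodule.span_induction ?_ ?_ ?_ ?_ ha
    · rintro a ⟨f, x, rfl⟩
      obtain ⟨H, hH⟩ := hinj.out i hi ((LinearMap.toSpanSingleton A E x).comp g)
      refine ⟨f.comp H, fun z => ?_⟩
      rw [LinearMap.comp_apply, hH, LinearMap.comp_apply, LinearMap.toSpanSingleton_apply, map_smul,
        smul_eq_mul, mul_comm]
    · refine ⟨0, fun z => ?_⟩
      rw [LinearMap.zero_apply, zero_mul]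
    · rintro a b _ _ ⟨H, hH⟩ ⟨H', hH'⟩
      refine ⟨H + H', fun z => ?_⟩
      rw [LinearMap.add_apply, hH, hH', add_mul]
    · rintro r a _ ⟨H, hH⟩
      refine ⟨r • H, fun z => ?_⟩
      rw [LinearMap.smul_apply, hH, smul_eq_mul, smul_eq_mul, mul_assoc]
  have htop : I = ⊤ := by
    by_contra hne
    obtain ⟨m, hm, hIm⟩ := Ideal.exists_le_maximal I hne
    obtain ⟨w, hw, hmw⟩ := hsoc m hm
    obtain ⟨f, x, hfx⟩ := frob_max hend hfaith hsym m hm w hw hmw
    apply hfx
    apply hIm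
    rw [hI]
    exact Ideal.subset_span ⟨f, x, rfl⟩
  refine ⟨fun X Y _ _ _ _ i hi g => ?_⟩
  have h1 : (1 : A) ∈ I := by
    rw [htop]
    exact Submodule.mem_top
  obtain ⟨H, hH⟩ := hcl 1 h1 i hi g
  refine ⟨H, fun x => ?_⟩
  rw [hH, one_mul]

end Pool.Agent.TSP
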