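import Pool.Agent.TSP.Defs
import Pool.Agent.TG.Main

/-!
# TSP-ISO: the graded factors

`core_iso`: the proof of `TG.core_alg_sharp` and of `TG.main_alg` ends with an isomorphism
`Du k A ≃ₗ[A] A`.  `van_iso`: invariance of the vanishing of Ext under isomorphisms.
`sym`: the swap trace of a free module of rank one.
-/

set_option autoImplicit false

noncomputable section

universe u

namespace Pool.Agent.TSP

open TensorProduct CategoryTheory

theorem core_iso_aux {k A : Type u} [Field k] [CommRing A] [Algebra k A] [Module.Finite k A]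
    (G : TG.GAlg k A) (h2 : (2 : k) ≠ 0) (s : ℕ) (hs : G.top ≤ s + 1)
    (hv : VanE A (TG.Du k A) (3 * s + 2)) : Nonempty (TG.Du k A ≃ₗ[A] A) := by
  by_cases hA : Subsingleton A
  · have h1 : ∀ x : TG.Du k A, x = 0 := fun x => by
      have h3 : (1 : A) = 0 := Subsingleton.elim _ _
      have h4 : (1 : A) • x = (0 : A) • x := by rw [h3]
      rwa [one_smul, zero_smul] at h4
    exact ⟨{ toLinearMap := 0
             invFun := fun _ => 0
             left_inv := fun x => (h1 x).symm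
             right_inv := fun x => Subsingleton.elim _ _ }⟩
  have hA' : Nontrivial A := not_subsingleton_iff_nontrivial.mp hA
  have hf : Module.finrank k (TG.Du k A) = Module.finrank k A := TG.finrank_du
  have hD : Nontrivial (TG.Du k A) := by
    apply Module.nontrivial_of_finrank_pos (R := k)
    rw [hf]
    exact Module.finrank_pos
  obtain ⟨e⟩ := TG.dbl (k := k) (A := A)
  have hv' : TG.Van k A (TG.Du k A) (2 * s + s + 2) := by
    intro i h1 hi
    have h3 := hv i h1 (by omega)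
    let E : ModuleCat.of A A ≅ ModuleCat.of A (TG.Du k (TG.Du k A)) := e.toModuleIso
    refine subsingleton_of_forall_eq 0 (fun x => ?_)
    have h4 : x.comp (Abelian.Ext.mk₀ E.inv) (add_zero i) = 0 := @Subsingleton.elim _ h3 _ _
    have h5 : (x.comp (Abelian.Ext.mk₀ E.inv) (add_zero i)).comp (Abelian.Ext.mk₀ E.hom)
        (add_zero i) = x := by
      rw [Abelian.Ext.comp_assoc_of_second_deg_zero, Abelian.Ext.mk₀_comp_mk₀, E.inv_hom_id,
        Abelian.Ext.comp_mk₀_id]
    rw [← h5, h4, Abelian.Ext.zero_comp]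
  obtain ⟨_, h6⟩ := TG.core_mod_sharp G h2 (TG.dualGrd G.toGrd s hs) (TG.cmp_dual G s hs) s s hs
    (le_refl (s + 1)) hv' hD
  exact h6 hf.symm

theorem core_iso {k A : Type u} [Field k] [CommRing A] [Algebra k A] [Module.Finite k A]
    (h2 : (2 : k) ≠ 0) (𝒜 : ℕ → Submodule k A) [GradedAlgebra 𝒜]
    (h0 : ∀ a ∈ 𝒜 0, ∃ c : k, a = algebraMap k A c) (s : ℕ)
    (hs : ∀ i, s < i → 𝒜 i = ⊥) (hv : VanE A (TG.Du k A) (3 * s + 2)) :
    Nonempty (TG.Du k A ≃ₗ[A] A) :=
  core_iso_aux (TG.toGAlg 𝒜 h0 s hs) h2 s le_rfl hv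

theorem van_iso {B M N : Type u} [CommRing B] [AddCommGroup M] [Module B M] [AddCommGroup N]
    [Module B N] (e : M ≃ₗ[B] N) (q : ℕ) (h : VanE B M q) : VanE B N q := by
  intro i h1 hi
  have h3 := h i h1 hi
  let E : ModuleCat.of B M ≅ ModuleCat.of B N := e.toModuleIso
  refine subsingleton_of_forall_eq 0 (fun x => ?_)
  have h4 : (Abelian.Ext.mk₀ E.hom).comp x (zero_add i) = 0 := @Subsingleton.elim _ h3 _ _
  have h5 : (Abelian.Ext.mk₀ E.inv).comp ((Abelian.Ext.mk₀ E.hom).comp x (zero_add i))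
      (zero_add i) = x := by
    rw [← Abelian.Ext.comp_assoc_of_second_deg_zero, Abelian.Ext.mk₀_comp_mk₀, E.inv_hom_id,
      Abelian.Ext.mk₀_id_comp]
  rw [← h5, h4, Abelian.Ext.comp_zero]

theorem sym {R B W : Type u} [CommRing R] [CommRing B] [Algebra R B] [AddCommGroup W] [Module R W]
    (e : (B ⊗[R] W) ≃ₗ[B] B) (f : W →ₗ[R] R) (x y : W) :
    (1 : B) ⊗ₜ[R] (f x • y) = (1 : B) ⊗ₜ[R] (f y • x) := by
  -- the generator
  let u := e.symm 1
  have hu : ∀ z : B ⊗[R] W, z = e z • u := fun z => by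
    apply e.injective
    rw [map_smul, e.apply_symm_apply, smul_eq_mul, mul_one]
  -- the extension of `f`
  let F : (B ⊗[R] W) →ₗ[B] B :=
    (TensorProduct.AlgebraTensorModule.rid R B B).toLinearMap ∘ₗ f.baseChange B
  have hF : ∀ x, F ((1 : B) ⊗ₜ[R] x) = algebraMap R B (f x) := fun x => by
    change (TensorProduct.AlgebraTensorModule.rid R B B) (f.baseChange B ((1 : B) ⊗ₜ[R] x)) = _
    rw [LinearMap.baseChange_tmul, TensorProduct.AlgebraTensorModule.rid_tmul, Algebra.smul_def,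
      mul_one]
  have key : ∀ x y : W, (1 : B) ⊗ₜ[R] (f x • y) =
      F ((1 : B) ⊗ₜ[R] x) • ((1 : B) ⊗ₜ[R] y) := fun x y => by
    rw [hF, smul_tmul', smul_eq_mul, mul_one, ← smul_tmul, Algebra.smul_def, mul_one]
  rw [key, key]
  rw [hu ((1 : B) ⊗ₜ[R] x), hu ((1 : B) ⊗ₜ[R] y)]
  generalize e ((1 : B) ⊗ₜ[R] x) = a
  generalize e ((1 : B) ⊗ₜ[R] y) = b
  rw [map_smul, map_smul, smul_smul, smul_smul, smul_eq_mul, smul_eq_mul]
  congr 1
  ring

end Pool.Agent.TSP
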