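import Pool.Agent.TSP.Defs

/-!
# TSP-NAK: extension of linear maps by Nakayama's lemma

PLAN.  `nak`: `H = N →ₗ[R] R` is a finitely generated `R`-module (`R` Noetherian;
`Module.Finite R (N →ₗ[R] R)`: embed it into `R^m` by the values on generators of `N`, or Mathlib's
instance for Noetherian rings).  `H0` = submodule of the `f` which extend to `Fin n → R`.  For
`f : H`: `f'(q x) = mk (f x)` defines an `A`-linear map `f' : N' → A` (well defined by `hq.ker`:
if `q x = q y` then `x - y = ϖ • z`); it extends to `g'` on `Fin n → A` (`h`); let `g` be the linear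
map with `mk (g (Pi.single i 1)) = g' (Pi.single i 1)`, so `mk (g x) = g' (mk ∘ x)`.  For `x : N`
`f x - g x ∈ (ϖ)`, so `f x - g x = ϖ * k x` with `k` linear (`hR`).  So `⊤ ≤ H0 ⊔ (ϖ) • ⊤` and
`H0 = ⊤` by `Submodule.le_of_le_smul_of_le_jacobson_bot`.

`lift_hom`: `f' ∘ p'` on `Fin n → A` lifts to `g : (Fin n → R) → R`, `mk (g x) = f' (q (p x))`;
for `x ∈ ker p` this is `f' 0 = 0`, so `g x = ϖ * k x`, `k` linear on `ker p`; `k` extends to `k'`
(`hN`); `g - ϖ k'` vanishes on `ker p`, so it is `f ∘ p` (`Submodule.liftQ`,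
`LinearMap.quotKerEquivOfSurjective`).
-/

set_option autoImplicit false

noncomputable section

universe u

namespace Pool.Agent.TSP

variable {R : Type u} [CommRing R] (ϖ : R)

private theorem nk_dvd (r : R) (h : Ideal.Quotient.mk (Ideal.span {ϖ}) r = 0) : ∃ s, r = ϖ * s := by
  rw [Ideal.Quotient.eq_zero_iff_mem, Ideal.mem_span_singleton] at h
  exact h

private theorem nk_div (hR : Reg ϖ R) {W : Type u} [AddCommGroup W] [Module R W] (l : W →ₗ[R] R)
    (h : ∀ x, Ideal.Quotient.mk (Ideal.span {ϖ}) (l x) = 0) : ∃ k : W →ₗ[R] R, ∀ x, l x = ϖ * k x := by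
  choose k hk using fun x => nk_dvd ϖ (l x) (h x)
  have inj : ∀ a b : R, ϖ * a = ϖ * b → a = b := by
    intro a b hab
    have := hR (a - b) (by rw [smul_eq_mul, mul_sub, hab, sub_self])
    exact sub_eq_zero.1 this
  refine ⟨{ toFun := k, map_add' := ?_, map_smul' := ?_ }, hk⟩
  · intro x y
    apply inj
    rw [← hk, map_add, hk, hk]
    ring
  · intro r x
    apply inj
    rw [← hk, map_smul, hk, smul_eq_mul, RingHom.id_apply, smul_eq_mul]
    ring

private theorem nk_sub {W W' : Type u} [AddCommGroup W] [Module R W] [AddCommGroup W']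
    [Module (R ⧸ Ideal.span {ϖ}) W'] (q : W → W') (hq : IsRed ϖ q) (x y : W) :
    q (x - y) = q x - q y := by
  have h := hq.add (x - y) y
  rw [sub_add_cancel] at h
  rw [h, add_sub_cancel_right]

private theorem nk_zero {W W' : Type u} [AddCommGroup W] [Module R W] [AddCommGroup W']
    [Module (R ⧸ Ideal.span {ϖ}) W'] (q : W → W') (hq : IsRed ϖ q) : q 0 = 0 := by
  have h := nk_sub ϖ q hq 0 0
  rwa [sub_self, sub_self] at h

private theorem nk_desc {W W' : Type u} [AddCommGroup W] [Module R W] [AddCommGroup W']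
    [Module (R ⧸ Ideal.span {ϖ}) W'] (q : W → W') (hq : IsRed ϖ q) (f : W →ₗ[R] R) :
    ∃ f' : W' →ₗ[R ⧸ Ideal.span {ϖ}] (R ⧸ Ideal.span {ϖ}),
      ∀ x, f' (q x) = Ideal.Quotient.mk (Ideal.span {ϖ}) (f x) := by
  choose s hs using hq.surj
  have key : ∀ x, Ideal.Quotient.mk (Ideal.span {ϖ}) (f (s (q x))) =
      Ideal.Quotient.mk (Ideal.span {ϖ}) (f x) := by
    intro x
    have h1 : q (s (q x) - x) = 0 := by rw [nk_sub ϖ q hq, hs, sub_self]
    obtain ⟨y, hy⟩ := (hq.ker _).1 h1
    have h2 : f (s (q x)) - f x = ϖ * f y := by rw [← map_sub, hy, map_smul, smul_eq_mul]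
    rw [Ideal.Quotient.eq, h2]
    exact Ideal.mul_mem_right _ _ (Ideal.mem_span_singleton_self ϖ)
  refine ⟨{ toFun := fun w => Ideal.Quotient.mk (Ideal.span {ϖ}) (f (s w)), map_add' := ?_,
            map_smul' := ?_ }, key⟩
  · intro a b
    obtain ⟨x, rfl⟩ := hq.surj a
    obtain ⟨y, rfl⟩ := hq.surj b
    rw [← hq.add, key, key, key, map_add, map_add]
  · intro c a
    obtain ⟨x, rfl⟩ := hq.surj a
    obtain ⟨r, rfl⟩ := Ideal.Quotient.mk_surjective c
    rw [← hq.smul, key, key, map_smul, smul_eq_mul, map_mul, RingHom.id_apply, smul_eq_mul]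

private theorem nk_lift {n : ℕ} (l : (Fin n → R) →ₗ[R] (R ⧸ Ideal.span {ϖ})) :
    ∃ g : (Fin n → R) →ₗ[R] R, ∀ x, Ideal.Quotient.mk (Ideal.span {ϖ}) (g x) = l x := by
  choose r hr using fun i : Fin n => Ideal.Quotient.mk_surjective (l (fun j => if i = j then 1 else 0))
  refine ⟨Fintype.linearCombination R r, fun x => ?_⟩
  rw [Fintype.linearCombination_apply, map_sum, LinearMap.pi_apply_eq_sum_univ l x]
  refine Finset.sum_congr rfl fun i _ => ?_
  rw [smul_eq_mul, map_mul, hr, Algebra.smul_def]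
  rfl

private theorem nk_fin [IsNoetherianRing R] {n : ℕ} (N : Submodule R (Fin n → R)) :
    Module.Finite R (N →ₗ[R] R) := by
  have h1 : Module.Finite R N := inferInstance
  obtain ⟨m, p, hp⟩ := Module.Finite.exists_fin' R N
  have h2 : Function.Injective (LinearMap.lcomp R R p : (N →ₗ[R] R) →ₗ[R] ((Fin m → R) →ₗ[R] R)) := by
    intro a b hab
    refine LinearMap.ext fun x => ?_
    obtain ⟨y, rfl⟩ := hp x
    exact LinearMap.congr_fun hab y
  have h3 : IsNoetherian R ((Fin m → R) →ₗ[R] R) := inferInstance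
  have h4 := isNoetherian_of_injective _ h2
  infer_instance

theorem nak [IsNoetherianRing R] (hJ : ϖ ∈ Ideal.jacobson (⊥ : Ideal R)) (hR : Reg ϖ R) {n : ℕ}
    (N : Submodule R (Fin n → R))
    (N' : Submodule (R ⧸ Ideal.span {ϖ}) (Fin n → R ⧸ Ideal.span {ϖ})) (q : N → N')
    (hq : IsRed ϖ q)
    (hqx : ∀ x, (q x : Fin n → R ⧸ Ideal.span {ϖ}) = fun i => Ideal.Quotient.mk _ (x.1 i))
    (h : ExtP (R ⧸ Ideal.span {ϖ}) N') : ExtP R N := by
  intro f
  have hfin := nk_fin N
  have key : (⊤ : Submodule R (N →ₗ[R] R)) ≤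
      LinearMap.range (LinearMap.lcomp R R N.subtype : ((Fin n → R) →ₗ[R] R) →ₗ[R] (N →ₗ[R] R)) := by
    refine Submodule.le_of_le_smul_of_le_jacobson_bot (I := Ideal.span {ϖ}) hfin.fg_top ?_ ?_
    · rw [Ideal.span_singleton_le_iff_mem]
      exact hJ
    · intro u _
      obtain ⟨u', hu'⟩ := nk_desc ϖ q hq u
      obtain ⟨g', hg'⟩ := h u'
      obtain ⟨g, hg⟩ := nk_lift ϖ ({ toFun := fun x => g' (fun i => Ideal.Quotient.mk _ (x i))
                                     map_add' := fun x y => by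
                                       rw [← map_add]
                                       congr 1
                                     map_smul' := fun r x => by
                                       have : (fun i => Ideal.Quotient.mk (Ideal.span {ϖ}) ((r • x) i)) =
                                         (Ideal.Quotient.mk (Ideal.span {ϖ}) r) •
                                           (fun i => Ideal.Quotient.mk (Ideal.span {ϖ}) (x i)) := by
                                         funext i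
                                         simp
                                       rw [this, map_smul, RingHom.id_apply, Algebra.smul_def]
                                       rfl } : (Fin n → R) →ₗ[R] (R ⧸ Ideal.span {ϖ}))
      obtain ⟨k, hk⟩ := nk_div ϖ hR (u - g.comp N.subtype) (by
        intro x
        have h1 := hg (x : Fin n → R)
        have h2 := hg' (q x)
        rw [hqx x, hu' x] at h2
        rw [LinearMap.sub_apply, map_sub, sub_eq_zero, ← h2]
        exact h1.symm)
      have hu : u = LinearMap.lcomp R R N.subtype g + ϖ • k := by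
        refine LinearMap.ext fun x => ?_
        have h1 := hk x
        rw [LinearMap.sub_apply] at h1
        rw [LinearMap.add_apply, LinearMap.smul_apply, smul_eq_mul, ← h1]
        change u x = g x + (u x - g x)
        ring
      rw [hu]
      refine Submodule.add_mem_sup (LinearMap.mem_range_self _ _) ?_
      exact Submodule.smul_mem_smul (Ideal.mem_span_singleton_self ϖ) Submodule.mem_top
  obtain ⟨g, hg⟩ := key (Submodule.mem_top (x := f))
  exact ⟨g, fun x => LinearMap.congr_fun hg x⟩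

theorem lift_hom (hR : Reg ϖ R) {W W' : Type u} [AddCommGroup W]
    [Module R W] [AddCommGroup W'] [Module (R ⧸ Ideal.span {ϖ}) W'] (q : W → W')
    (hq : IsRed ϖ q) {n : ℕ} (p : (Fin n → R) →ₗ[R] W) (hp : Function.Surjective p)
    (hN : ExtP R (LinearMap.ker p)) (f' : W' →ₗ[R ⧸ Ideal.span {ϖ}] (R ⧸ Ideal.span {ϖ})) :
    ∃ f : W →ₗ[R] R, ∀ x, Ideal.Quotient.mk (Ideal.span {ϖ}) (f x) = f' (q x) := by
  have hl1 : ∀ x y : Fin n → R, f' (q (p (x + y))) = f' (q (p x)) + f' (q (p y)) := by
    intro x y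
    rw [map_add, hq.add, map_add]
  have hl2 : ∀ (r : R) (x : Fin n → R), f' (q (p (r • x))) = r • f' (q (p x)) := by
    intro r x
    rw [map_smul, hq.smul, map_smul, Algebra.smul_def]
    rfl
  obtain ⟨g, hg⟩ := nk_lift ϖ ({ toFun := fun x => f' (q (p x)), map_add' := hl1, map_smul' := hl2 } :
    (Fin n → R) →ₗ[R] (R ⧸ Ideal.span {ϖ}))
  have hg1 : ∀ x, Ideal.Quotient.mk (Ideal.span {ϖ}) (g x) = f' (q (p x)) := hg
  obtain ⟨k, hk⟩ := nk_div ϖ hR (g.comp (LinearMap.ker p).subtype) (by
    intro x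
    have h1 := hg1 (x : Fin n → R)
    have h2 : p (x : Fin n → R) = 0 := x.2
    rw [h2, nk_zero ϖ q hq, map_zero] at h1
    exact h1)
  obtain ⟨k', hk'⟩ := hN k
  have hker : LinearMap.ker p ≤ LinearMap.ker (g - ϖ • k') := by
    intro x hx
    have h1 := hk ⟨x, hx⟩
    have h2 := hk' ⟨x, hx⟩
    have h1' : g x = ϖ * k ⟨x, hx⟩ := h1
    have h2' : k' x = k ⟨x, hx⟩ := h2
    rw [LinearMap.mem_ker, LinearMap.sub_apply, LinearMap.smul_apply, smul_eq_mul, h1', h2', sub_self]
  refine ⟨(Submodule.liftQ (LinearMap.ker p) (g - ϖ • k') hker).comp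
    (p.quotKerEquivOfSurjective hp).symm.toLinearMap, fun x => ?_⟩
  obtain ⟨y, rfl⟩ := hp x
  have h1 : (p.quotKerEquivOfSurjective hp).symm (p y) = Submodule.Quotient.mk y := by
    rw [LinearEquiv.symm_apply_eq]
    rfl
  rw [LinearMap.comp_apply, LinearEquiv.coe_coe, h1]
  have h2 : (Submodule.liftQ (LinearMap.ker p) (g - ϖ • k') hker) (Submodule.Quotient.mk y) =
      (g - ϖ • k') y := Submodule.liftQ_apply _ _ _
  rw [h2, LinearMap.sub_apply, LinearMap.smul_apply, smul_eq_mul, map_sub, map_mul, hg1]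
  have h3 : Ideal.Quotient.mk (Ideal.span {ϖ}) ϖ = 0 :=
    Ideal.Quotient.eq_zero_iff_mem.2 (Ideal.mem_span_singleton_self ϖ)
  rw [h3, zero_mul, sub_zero]

end Pool.Agent.TSP
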