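import Pool.Agent.TSP.ExtS

/-!
# TSP-VANUP: one step of the resolution over the flat algebra `S`

PLAN.  Base change of `0 → ker p → R^n → W → 0` to `S` (flat): `f = (ker p).subtype.baseChange S`
is injective (`Module.Flat.lTensor_preserves_injective_linearMap`, `LinearMap.baseChange_eq_ltensor`),
`g = p.baseChange S` is surjective, `range f = ker g` (`lTensor_exact`).  `S ⊗ (Fin n → R)` is a
free, hence projective `S`-module.  Extension property: for `φ : S ⊗ ker p → S` the map
`x ↦ φ (1 ⊗ x)` is `R`-linear, so `= ∑ s_j * algebraMap (f_j x)` (`hS`; `ker p` is finitely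
generated, `R` Noetherian), `f_j` extends to `F_j : R^n → R` (`hN`), and the `S`-linear map
`S ⊗ R^n → S`, `s ⊗ x ↦ s * ∑ s_j * algebraMap (F_j x)` (`TensorProduct.AlgebraTensorModule.lift`)
extends `φ` (compare on `s ⊗ x`).  Then `ext_one`, `ext_succ` and induction on the degree:
`i = 1`: `ext_one`; `i = j + 1`, `j ≥ 1`: `ext_succ` with `hv`.
-/

set_option autoImplicit false

noncomputable section

universe u

namespace Pool.Agent.TSP

open TensorProduct

theorem van_up {R S : Type u} [CommRing R] [IsNoetherianRing R] [CommRing S] [Algebra R S]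
    [Module.Flat R S] (hS : Star R S) {W : Type u} [AddCommGroup W] [Module R W] {n : ℕ}
    (p : (Fin n → R) →ₗ[R] W) (hp : Function.Surjective p) (hN : ExtP R (LinearMap.ker p)) (q : ℕ)
    (hv : VanE S (S ⊗[R] (LinearMap.ker p)) q) : VanE S (S ⊗[R] W) (q + 1) := by
  have hf : Function.Injective ((LinearMap.ker p).subtype.baseChange S) := by
    exact Module.Flat.lTensor_preserves_injective_linearMap _ (Submodule.injective_subtype _)
  have hg : Function.Surjective (p.baseChange S) := by
    exact LinearMap.lTensor_surjective S hp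
  have hex : Function.Exact (LinearMap.ker p).subtype p := by
    intro y
    constructor
    · intro hy
      exact ⟨⟨y, hy⟩, rfl⟩
    · rintro ⟨z, rfl⟩
      exact z.2
  have hex2 : Function.Exact ((LinearMap.ker p).subtype.lTensor S) (p.lTensor S) :=
    lTensor_exact S hex hp
  have hfg : LinearMap.range ((LinearMap.ker p).subtype.baseChange S)
      = LinearMap.ker (p.baseChange S) := by
    ext y
    rw [LinearMap.mem_ker]
    exact (hex2 y).symm
  have hY : Module.Projective S (S ⊗[R] (Fin n → R)) := inferInstance
  intro i h1 h2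
  by_cases hi : i = 1
  · subst hi
    refine ext_one hY _ _ hfg hf hg ?_
    intro φ
    obtain ⟨m, s, f, hsf⟩ := hS (LinearMap.ker p)
      ((φ.restrictScalars R).comp (TensorProduct.mk R S (LinearMap.ker p) 1))
    choose F hF using fun j => hN (f j)
    refine ⟨LinearMap.liftBaseChange S
      (∑ j, (s j) • ((Algebra.linearMap R S).comp (F j))), fun t => ?_⟩
    induction t using TensorProduct.induction_on with
    | zero => simp
    | add x y hx hy => rw [map_add, map_add, map_add, hx, hy]
    | tmul a x =>
      have h3 := hsf x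
      have h4 : φ (a ⊗ₜ[R] x) = a • φ ((1 : S) ⊗ₜ[R] x) := by
        rw [← map_smul, TensorProduct.smul_tmul', smul_eq_mul, mul_one]
      rw [h4, LinearMap.baseChange_tmul, LinearMap.liftBaseChange_tmul]
      congr 1
      refine Eq.trans ?_ h3.symm
      rw [LinearMap.sum_apply]
      refine Finset.sum_congr rfl (fun j _ => ?_)
      rw [LinearMap.smul_apply, LinearMap.comp_apply, smul_eq_mul, Algebra.linearMap_apply,
        Submodule.subtype_apply, hF j x]
  · obtain ⟨j, rfl⟩ : ∃ j, i = j + 1 := ⟨i - 1, by omega⟩
    exact ext_succ hY _ _ hfg hf hg j (by omega) (hv j (by omega) (by omega))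

end Pool.Agent.TSP
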