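import Pool.Agent.TSP.Step
import Pool.Agent.TSP.Nak
import Pool.Agent.TSP.VanUp

/-!
# TSP-LIFT: the vanishing of Ext passes from the special fibre to flat algebras
-/

set_option autoImplicit false

noncomputable section

universe u

namespace Pool.Agent.TSP

open TensorProduct

variable {R : Type u} [CommRing R] [IsNoetherianRing R] (ϖ : R)

theorem extP_ker (hJ : ϖ ∈ Ideal.jacobson (⊥ : Ideal R)) (hR : Reg ϖ R) {W W' : Type u}
    [AddCommGroup W] [Module R W] [AddCommGroup W'] [Module (R ⧸ Ideal.span {ϖ}) W'] (q : W → W')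
    (hq : IsRed ϖ q) (hW : Reg ϖ W) {n : ℕ} (p : (Fin n → R) →ₗ[R] W)
    (hp : Function.Surjective p) (d : ℕ) (hv : VanE (R ⧸ Ideal.span {ϖ}) W' (d + 1)) :
    ExtP R (LinearMap.ker p) ∧ Reg ϖ (LinearMap.ker p) ∧
      ∃ (N' : Submodule (R ⧸ Ideal.span {ϖ}) (Fin n → R ⧸ Ideal.span {ϖ}))
        (q1 : LinearMap.ker p → N'), IsRed ϖ q1 ∧ VanE (R ⧸ Ideal.span {ϖ}) N' d := by
  obtain ⟨p', hp', _, hr, q1, hq1, hx⟩ := step ϖ hR q hq hW p hp
  obtain ⟨h1, h2⟩ := van_down p' hp' d hv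
  exact ⟨nak ϖ hJ hR _ _ q1 hq1 hx h1, hr, _, q1, hq1, h2⟩

theorem van_lift (hJ : ϖ ∈ Ideal.jacobson (⊥ : Ideal R)) (hR : Reg ϖ R) {S : Type u} [CommRing S]
    [Algebra R S] [Module.Flat R S] (hS : Star R S) (d : ℕ) : ∀ (W W' : Type u)
    [AddCommGroup W] [Module R W] [Module.Finite R W] [AddCommGroup W']
    [Module (R ⧸ Ideal.span {ϖ}) W'] (q : W → W') (_ : IsRed ϖ q) (_ : Reg ϖ W)
    (_ : VanE (R ⧸ Ideal.span {ϖ}) W' d), VanE S (S ⊗[R] W) d := by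
  induction d with
  | zero =>
    intro W W' _ _ _ _ _ q _ _ _ i h1 h2
    omega
  | succ d ih =>
    intro W W' _ _ _ _ _ q hq hW hv
    obtain ⟨n, p, hp⟩ := Module.Finite.exists_fin' R W
    obtain ⟨h1, hr, N', q1, hq1, h2⟩ := extP_ker ϖ hJ hR q hq hW p hp d hv
    exact van_up hS p hp h1 d (ih (LinearMap.ker p) N' q1 hq1 hr h2)

/-- Every map from the reduction of `W` to `A` lifts to a map `W → R`. -/
theorem hom_lift (hJ : ϖ ∈ Ideal.jacobson (⊥ : Ideal R)) (hR : Reg ϖ R) {W W' : Type u}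
    [AddCommGroup W] [Module R W] [Module.Finite R W] [AddCommGroup W']
    [Module (R ⧸ Ideal.span {ϖ}) W'] (q : W → W') (hq : IsRed ϖ q) (hW : Reg ϖ W)
    (hv : VanE (R ⧸ Ideal.span {ϖ}) W' 1)
    (f' : W' →ₗ[R ⧸ Ideal.span {ϖ}] (R ⧸ Ideal.span {ϖ})) :
    ∃ f : W →ₗ[R] R, ∀ x, Ideal.Quotient.mk (Ideal.span {ϖ}) (f x) = f' (q x) := by
  obtain ⟨n, p, hp⟩ := Module.Finite.exists_fin' R W
  exact lift_hom ϖ hR q hq p hp (extP_ker ϖ hJ hR q hq hW p hp 0 hv).1 f'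

end Pool.Agent.TSP
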