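import Pool.Agent.TSP.Coi

/-!
# TSP-REDW: reduction of the dualizing module `W = Hom_V(R, V)` modulo `ϖ`, regularity, finiteness
-/

set_option autoImplicit false

noncomputable section

universe u

namespace Pool.Agent.TSP

variable (V R : Type u) [CommRing V] [IsDomain V] [IsDiscreteValuationRing V] [CommRing R]
  [Algebra V R] [Module.Finite V R] [Module.Free V R] (π : V)

omit [IsDomain V] [IsDiscreteValuationRing V] [Module.Finite V R] [Module.Free V R] in
private theorem redW_lift {Q : Type u} [AddCommGroup Q] [Module V Q] (f : R →ₗ[V] Q)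
    (hf : ∀ r, f (algebraMap V R π * r) = 0) :
    ∃ g : Aq V R π →ₗ[V] Q, ∀ r, g (Ideal.Quotient.mk _ r) = f r := by
  have hI : (Ideal.span {algebraMap V R π}).restrictScalars V ≤ LinearMap.ker f := by
    intro r hr
    rw [Submodule.restrictScalars_mem, Ideal.mem_span_singleton'] at hr
    obtain ⟨s, rfl⟩ := hr
    rw [LinearMap.mem_ker, mul_comm]
    exact hf s
  exact ⟨(((Ideal.span {algebraMap V R π}).restrictScalars V).liftQ f hI).comp
    (Submodule.Quotient.restrictScalarsEquiv V (Ideal.span {algebraMap V R π})).symm.toLinearMap,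
    fun r => rfl⟩

omit [IsDomain V] [IsDiscreteValuationRing V] [Module.Finite V R] [Module.Free V R] in
private theorem redW_mul {Q : Type u} [AddCommGroup Q] [Module V Q] (φ : R →ₗ[V] Q) (r : R) :
    φ (algebraMap V R π * r) = π • φ r := by
  rw [← Algebra.smul_def, map_smul]

omit [IsDiscreteValuationRing V] [Module.Finite V R] in
private theorem redW_tors (h0 : π ≠ 0) (r : R) (h : algebraMap V R π * r = 0) : r = 0 := by
  rw [← Algebra.smul_def] at h
  exact (smul_eq_zero.1 h).resolve_left h0

theorem redW (h0 : π ≠ 0) :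
    ∃ q : Co V R V → Co V (Aq V R π) (Lq V π), IsRed (algebraMap V R π) q := by
  have hpi : (Submodule.Quotient.mk π : Lq V π) = 0 :=
    (Submodule.Quotient.mk_eq_zero _).2 (Ideal.mem_span_singleton_self π)
  have hex : ∀ φ : Co V R V, ∃ g : Aq V R π →ₗ[V] Lq V π,
      ∀ r, g (Ideal.Quotient.mk _ r) = (Ideal.span {π} : Ideal V).mkQ (Co.fn φ r) := by
    intro φ
    refine redW_lift V R π (((Ideal.span {π} : Ideal V).mkQ).comp (Co.fn φ)) (fun r => ?_)
    rw [redW_mul, LinearMap.comp_apply, ← map_smul, Submodule.mkQ_apply,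
      Submodule.Quotient.mk_eq_zero, smul_eq_mul]
    exact Ideal.mul_mem_right _ _ (Ideal.mem_span_singleton_self π)
  choose g hg using hex
  have hext : ∀ a b : Co V (Aq V R π) (Lq V π),
      (∀ r, Co.fn a (Ideal.Quotient.mk _ r) = Co.fn b (Ideal.Quotient.mk _ r)) → a = b := by
    intro a b h
    refine Co.ext (fun x => ?_)
    obtain ⟨r, rfl⟩ := Ideal.Quotient.mk_surjective x
    exact h r
  refine ⟨fun φ => Co.mk (g φ), ⟨?_, ?_, ?_, ?_⟩⟩
  · intro φ ψ
    refine hext _ _ (fun r => ?_)
    rw [Co.fn_add, Co.fn_mk, Co.fn_mk, Co.fn_mk, hg, hg, hg, Co.fn_add, map_add]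
  · intro s φ
    refine hext _ _ (fun r => ?_)
    rw [Co.fn_smul, Co.fn_mk, Co.fn_mk, ← map_mul, hg, hg, Co.fn_smul]
  · intro ψ
    obtain ⟨h, hh⟩ := Module.projective_lifting_property (Ideal.span {π} : Ideal V).mkQ
      ((Co.fn ψ).comp (Ideal.Quotient.mkₐ V (Ideal.span {algebraMap V R π})).toLinearMap)
      (Submodule.mkQ_surjective _)
    refine ⟨Co.mk h, ?_⟩
    refine hext _ _ (fun r => ?_)
    rw [Co.fn_mk, hg, Co.fn_mk]
    exact LinearMap.congr_fun hh r
  · intro φ
    constructor
    · intro h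
      have h1 : ∀ r, ∃ v, Co.fn φ r = π * v := by
        intro r
        have h2 : g φ (Ideal.Quotient.mk _ r) = 0 := by
          have h3 := congrArg (fun a => Co.fn a (Ideal.Quotient.mk _ r)) h
          exact h3
        rw [hg, Submodule.mkQ_apply, Submodule.Quotient.mk_eq_zero, Ideal.mem_span_singleton'] at h2
        obtain ⟨v, hv⟩ := h2
        exact ⟨v, by rw [← hv, mul_comm]⟩
      choose ψ hψ using h1
      refine ⟨Co.mk { toFun := ψ, map_add' := ?_, map_smul' := ?_ }, ?_⟩
      · intro r s
        apply mul_left_cancel₀ h0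
        rw [mul_add, ← hψ, ← hψ, ← hψ, map_add]
      · intro v r
        apply mul_left_cancel₀ h0
        rw [← hψ, map_smul, hψ r, RingHom.id_apply, smul_eq_mul, smul_eq_mul]
        ring
      · refine Co.ext (fun r => ?_)
        rw [Co.fn_smul, redW_mul, smul_eq_mul]
        exact hψ r
    · rintro ⟨ψ, rfl⟩
      refine hext _ _ (fun r => ?_)
      rw [Co.fn_mk, hg, Co.fn_smul, Co.fn_zero, redW_mul, Submodule.mkQ_apply,
        Submodule.Quotient.mk_eq_zero, smul_eq_mul]
      exact Ideal.mul_mem_right _ _ (Ideal.mem_span_singleton_self π)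

theorem regW (h0 : π ≠ 0) : Reg (algebraMap V R π) (Co V R V) := by
  intro φ h
  refine Co.ext (fun r => ?_)
  have h1 := congrArg (fun a => Co.fn a r) h
  simp only [Co.fn_smul, redW_mul, Co.fn_zero, smul_eq_mul] at h1
  rw [Co.fn_zero]
  exact (mul_eq_zero.1 h1).resolve_left h0

theorem regR (h0 : π ≠ 0) : Reg (algebraMap V R π) R := fun r h =>
  redW_tors V R π h0 r h

theorem finW : Module.Finite R (Co V R V) := by
  classical
  set b := Module.Free.chooseBasis V R with hb
  refine Module.Finite.of_surjective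
    (Fintype.linearCombination R (fun i => (Co.mk (b.coord i) : Co V R V))) ?_
  intro φ
  refine ⟨fun i => algebraMap V R (Co.fn φ (b i)), ?_⟩
  rw [Fintype.linearCombination_apply]
  have hsum : ∀ (s : Finset (Module.Free.ChooseBasisIndex V R))
      (f : Module.Free.ChooseBasisIndex V R → Co V R V) (r : R),
      Co.fn (∑ i ∈ s, f i) r = ∑ i ∈ s, Co.fn (f i) r := by
    intro s f r
    induction s using Finset.induction_on with
    | empty => simp
    | insert a s ha ih => rw [Finset.sum_insert ha, Finset.sum_insert ha, Co.fn_add, ih]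
  refine Co.ext (fun r => ?_)
  rw [hsum]
  conv_rhs => rw [← b.sum_repr r, map_sum]
  apply Finset.sum_congr rfl
  intro i _
  rw [Co.fn_smul, Co.fn_mk, redW_mul, map_smul, smul_eq_mul, smul_eq_mul, Module.Basis.coord_apply,
    mul_comm]

theorem jac (h1 : ¬ IsUnit π) : algebraMap V R π ∈ Ideal.jacobson (⊥ : Ideal R) := by
  rw [Ideal.mem_jacobson_bot]
  intro y
  set u := algebraMap V R π * y + 1 with hu
  set N : Submodule V R := LinearMap.range (LinearMap.mulLeft V u) with hN
  have hπ : Ideal.span {π} ≤ Ideal.jacobson (⊥ : Ideal V) := by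
    refine le_trans ?_ (IsLocalRing.maximalIdeal_le_jacobson _)
    rw [Ideal.span_singleton_le_iff_mem]
    exact (IsLocalRing.mem_maximalIdeal π).2 h1
  have hle : (⊤ : Submodule V R) ≤ N ⊔ Ideal.span {π} • ⊤ := by
    intro r _
    have e : r = u * r + π • (-(y * r)) := by
      rw [Algebra.smul_def, hu]
      ring
    rw [e]
    exact Submodule.add_mem_sup ⟨r, rfl⟩
      (Submodule.smul_mem_smul (Ideal.mem_span_singleton_self π) trivial)
  have htop := Submodule.le_of_le_smul_of_le_jacobson_bot
    (Module.finite_def.1 inferInstance) hπ hle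
  obtain ⟨z, hz⟩ := htop (show (1 : R) ∈ (⊤ : Submodule V R) from trivial)
  exact IsUnit.of_mul_eq_one z hz

theorem artA (h0 : π ≠ 0) : IsArtinianRing (Aq V R π) := by
  have hfin : Module.Finite V (Aq V R π) :=
    Module.Finite.of_surjective
      (Ideal.Quotient.mkₐ V (Ideal.span {algebraMap V R π})).toLinearMap
      (Ideal.Quotient.mkₐ_surjective V _)
  have hnoeV : IsNoetherian V (Aq V R π) := isNoetherian_of_isNoetherianRing_of_finite V _
  have hnoe : IsNoetherianRing (Aq V R π) := isNoetherian_of_tower V hnoeV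
  rw [isArtinianRing_iff_krullDimLE_zero]
  apply Ring.KrullDimLE.mk₀
  intro P hP
  have hint : Algebra.IsIntegral V (Aq V R π) := Algebra.IsIntegral.of_finite V _
  apply Ideal.isMaximal_of_isIntegral_of_isMaximal_comap (R := V) P
  apply IsPrime.to_maximal_ideal
  intro hbot
  have hmem : π ∈ P.comap (algebraMap V (Aq V R π)) := by
    rw [Ideal.mem_comap]
    have h2 : algebraMap V (Aq V R π) π = 0 :=
      Ideal.Quotient.eq_zero_iff_mem.2 (Ideal.mem_span_singleton_self _)
    rw [h2]
    exact P.zero_mem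
  rw [hbot] at hmem
  exact h0 hmem

end Pool.Agent.TSP
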