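import Pool.Agent.TSP.Defs

/-!
# TSP-SOC: annihilated elements over an Artinian ring

The powers of `m` stabilise, so by Nakayama some element outside of `m` kills a power of `m`; the
least such power gives an element of the annihilator of `m` outside of the annihilator of `E`.
-/

set_option autoImplicit false

noncomputable section

universe u

namespace Pool.Agent.TSP

theorem soc {A E : Type u} [CommRing A] [IsArtinianRing A] [AddCommGroup E] [Module A E]
    (hfaith : ∀ a : A, (∀ x : E, a • x = 0) → a = 0) (m : Ideal A) (hm : m.IsMaximal) :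
    ∃ w : E, w ≠ 0 ∧ ∀ a ∈ m, a • w = 0 := by
  classical
  have hex : ∃ n : ℕ, ∃ a : A, a ∉ m ∧ ∀ b ∈ m ^ n, a * b = 0 := by
    let f : ℕ →o (Submodule A A)ᵒᵈ :=
      ⟨fun n => OrderDual.toDual (m ^ n : Ideal A), fun i j hij => Ideal.pow_le_pow_right hij⟩
    obtain ⟨n, hn⟩ := IsArtinian.monotone_stabilizes f
    have h1 : (m ^ n : Ideal A) = m ^ (n + 1) := hn (n + 1) (Nat.le_succ n)
    have h2 : (m ^ n : Ideal A) ≤ m • (m ^ n : Ideal A) := by
      rw [smul_eq_mul, ← pow_succ']
      exact h1.le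
    obtain ⟨r, hr, h3⟩ := Submodule.exists_sub_one_mem_and_smul_eq_zero_of_fg_of_le_smul m
      (m ^ n : Ideal A) (IsNoetherian.noetherian _) h2
    refine ⟨n, r, fun hrm => ?_, fun b hb => ?_⟩
    · have h4 : (1 : A) ∈ m := by
        have := m.sub_mem hrm hr
        rwa [sub_sub_cancel] at this
      exact hm.ne_top ((Ideal.eq_top_iff_one m).2 h4)
    · have := h3 b hb
      rwa [smul_eq_mul] at this
  obtain ⟨a, ha, hab⟩ := Nat.find_spec hex
  have hn0 : Nat.find hex ≠ 0 := by
    intro h0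
    rw [h0] at hab
    have h1 : a * 1 = 0 := hab 1 (by rw [pow_zero, Ideal.one_eq_top]; exact Submodule.mem_top)
    rw [mul_one] at h1
    exact ha (h1 ▸ m.zero_mem)
  obtain ⟨k, hk⟩ := Nat.exists_eq_succ_of_ne_zero hn0
  have hmin : ¬ ∃ a : A, a ∉ m ∧ ∀ b ∈ m ^ k, a * b = 0 := Nat.find_min hex (by omega)
  push Not at hmin
  obtain ⟨b, hb, hne⟩ := hmin a ha
  have h5 : ¬ ∀ x : E, (a * b) • x = 0 := fun h => hne (hfaith _ h)
  push Not at h5
  obtain ⟨x, hx⟩ := h5
  refine ⟨(a * b) • x, hx, fun c hc => ?_⟩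
  have h6 : b * c ∈ m ^ (Nat.find hex) := by
    rw [hk, Nat.succ_eq_add_one, pow_succ]
    exact Ideal.mul_mem_mul hb hc
  rw [smul_smul, show c * (a * b) = a * (b * c) by ring, hab _ h6, zero_smul]

end Pool.Agent.TSP
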