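import Pool.Agent.TSP.Defs

/-!
# TSP-STARB: direct factors of the generic fibre are flat and satisfy `Star`

`L` is a field containing `V`, `B` a direct factor of `L ⊗[V] R`: `P : L ⊗[V] R → B` surjective,
`ι : B → L ⊗[V] R` a section which is linear over `L ⊗[V] R`; the `R`-algebra structure of `B` is
`r ↦ P (1 ⊗ r)`.

PLAN.  `flatB`: `B` is a retract of the `R`-module `R ⊗[V] L` (`Module.Flat.of_retract`), which is
flat as a base change of the torsion free, hence flat, `V`-module `L` (`V` is a PID); the `R`-linear
maps are `b ↦ comm (ι b)` and `x ↦ P (comm x)` (`TensorProduct.comm V L R`; for the `R`-linearity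
check `comm ((1 ⊗ r) * y) = r • comm y` by induction on `y`, and `(1 ⊗ r) * ι b = ι (P (1 ⊗ r) * b)`).

`uniq`: choose a `V`-basis `b` of `R`; the `1 ⊗ b k` are an `L`-basis of `L ⊗[V] R`
(`Module.Basis.baseChange` / `Algebra.TensorProduct.basis`); the coefficient of
`∑ j, c j ⊗ r j` at `b k` is `∑ j, (b.repr (r j) k) • c j`; use the linear independence of `c`.

`starB`: let `n_1, ..., n_l` generate `N`.  Every `ι (g n_i)` is a finite sum of `d ⊗ r`; let
`D ⊆ L` be the `V`-submodule generated by the finitely many `d` which occur; it is finitely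
generated and torsion free, hence free: basis `c_1, ..., c_m`, linearly independent in `L`.  So each
`ι (g n_i)` is of the form `∑ j, c j ⊗ r j`, and the set `X` of the elements of `L ⊗[V] R` of this
form is closed under addition and under multiplication with `1 ⊗ r`; so `ι (g x) ∈ X` for all
`x : N` (`Submodule.span_induction`).  The `r j` are unique (`uniq`), so they are `R`-linear
functions `f j x`.  Finally `g x = P (ι (g x)) = ∑ j, P (c j ⊗ f j x)
= ∑ j, P (c j ⊗ 1) * algebraMap R B (f j x)`.
-/

set_option autoImplicit false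

noncomputable section

universe u

namespace Pool.Agent.TSP

open TensorProduct

variable {V R L B : Type u} [CommRing V] [IsDomain V] [IsDiscreteValuationRing V] [CommRing R]
  [Algebra V R] [Module.Finite V R] [Module.Free V R] [Field L] [Algebra V L] [CommRing B]
  [Algebra L B] [Algebra R B]

theorem uniq {m : ℕ} (c : Fin m → L) (hc : LinearIndependent V c) (r r' : Fin m → R)
    (h : ∑ j, c j ⊗ₜ[V] r j = ∑ j, c j ⊗ₜ[V] r' j) : r = r' := by
  let b := Module.Free.chooseBasis V R
  have key : ∀ k j, b.repr (r j) k = b.repr (r' j) k := by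
    intro k
    have h1 := congrArg
      (fun y => TensorProduct.rid V L (LinearMap.lTensor L (b.coord k) y)) h
    simp only [map_sum, LinearMap.lTensor_tmul, TensorProduct.rid_tmul,
      Module.Basis.coord_apply] at h1
    have h2 : ∑ j, (b.repr (r j) k - b.repr (r' j) k) • c j = 0 := by
      simp only [sub_smul, Finset.sum_sub_distrib, h1, sub_self]
    intro j
    exact sub_eq_zero.mp (Fintype.linearIndependent_iff.mp hc _ h2 j)
  funext j
  apply b.repr.injective
  ext k
  exact key k j

private theorem comm_mul (r : R) (y : L ⊗[V] R) :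
    TensorProduct.comm V L R ((1 ⊗ₜ r) * y) = r • TensorProduct.comm V L R y := by
  induction y using TensorProduct.induction_on with
  | zero => simp
  | tmul d s =>
    rw [Algebra.TensorProduct.tmul_mul_tmul, one_mul, TensorProduct.comm_tmul,
      TensorProduct.comm_tmul, TensorProduct.smul_tmul', smul_eq_mul]
  | add y z hy hz => rw [mul_add, map_add, hy, hz, map_add, smul_add]

theorem flatB (hL : Function.Injective (algebraMap V L)) (P : L ⊗[V] R →ₐ[L] B)
    (ι : B →ₗ[L] L ⊗[V] R) (hP : ∀ b, P (ι b) = b) (hι : ∀ s b, s * ι b = ι (P s * b))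
    (hr : ∀ r : R, algebraMap R B r = P (1 ⊗ₜ r)) : Module.Flat R B := by
  have : Module.IsTorsionFree V L := Module.isTorsionFree_iff_algebraMap_injective.mpr hL
  have : Module.Flat V L := inferInstance
  have : Module.Flat R (R ⊗[V] L) := inferInstance
  let i : B →ₗ[R] R ⊗[V] L :=
    { toFun := fun b => TensorProduct.comm V L R (ι b)
      map_add' := fun x y => by rw [map_add, map_add]
      map_smul' := fun r x => by
        rw [RingHom.id_apply, Algebra.smul_def, hr, ← hι, comm_mul] }
  let p : R ⊗[V] L →ₗ[R] B :=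
    { toFun := fun x => P ((TensorProduct.comm V L R).symm x)
      map_add' := fun x y => by rw [map_add, map_add]
      map_smul' := fun r x => by
        rw [RingHom.id_apply, Algebra.smul_def r (P _), hr, ← map_mul]
        congr 1
        apply (TensorProduct.comm V L R).injective
        rw [LinearEquiv.apply_symm_apply, comm_mul, LinearEquiv.apply_symm_apply] }
  refine Module.Flat.of_retract i p ?_
  ext b
  change P ((TensorProduct.comm V L R).symm (TensorProduct.comm V L R (ι b))) = b
  rw [LinearEquiv.symm_apply_apply, hP]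

private theorem combD {m : ℕ} (D : Submodule V L) (c : Module.Basis (Fin m) V D) (y : D ⊗[V] R) :
    ∃ r : Fin m → R, (D.subtype.rTensor R) y = ∑ j, (c j : L) ⊗ₜ[V] r j := by
  induction y using TensorProduct.induction_on with
  | zero => exact ⟨0, by simp⟩
  | tmul d s =>
    refine ⟨fun j => c.repr d j • s, ?_⟩
    rw [LinearMap.rTensor_tmul]
    have h1 : (D.subtype d) = ∑ j, c.repr d j • (c j : L) := by
      conv_lhs => rw [← c.sum_repr d]
      rw [map_sum]
      rfl
    rw [h1, TensorProduct.sum_tmul]
    exact Finset.sum_congr rfl (fun j _ => TensorProduct.smul_tmul _ _ _)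
  | add y z hy hz =>
    obtain ⟨r, hr⟩ := hy
    obtain ⟨r', hr'⟩ := hz
    refine ⟨r + r', ?_⟩
    rw [map_add, hr, hr', ← Finset.sum_add_distrib]
    exact Finset.sum_congr rfl (fun j _ => (TensorProduct.tmul_add _ _ _).symm)

private theorem mul_comb {m : ℕ} (c : Fin m → L) (a : R) (r : Fin m → R) :
    ((1 : L) ⊗ₜ[V] a) * ∑ j, c j ⊗ₜ[V] r j = ∑ j, c j ⊗ₜ[V] (a * r j) := by
  rw [Finset.mul_sum]
  refine Finset.sum_congr rfl (fun j _ => ?_)
  rw [Algebra.TensorProduct.tmul_mul_tmul, one_mul]

theorem starB (hL : Function.Injective (algebraMap V L)) (P : L ⊗[V] R →ₐ[L] B)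
    (ι : B →ₗ[L] L ⊗[V] R) (hP : ∀ b, P (ι b) = b) (hι : ∀ s b, s * ι b = ι (P s * b))
    (hr : ∀ r : R, algebraMap R B r = P (1 ⊗ₜ r)) : Star R B := by
  intro N _ _ _ g
  have : Module.IsTorsionFree V L := Module.isTorsionFree_iff_algebraMap_injective.mpr hL
  obtain ⟨S, hS⟩ := (Module.Finite.fg_top : (⊤ : Submodule R N).FG)
  obtain ⟨D, hD, hsub⟩ := TensorProduct.exists_finite_submodule_left_of_setFinite
    ((fun n : N => ι (g n)) '' (S : Set N)) (S.finite_toSet.image _)
  have := hD
  have : Module.Free V D := inferInstance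
  let c := Module.finBasis V D
  have hlin : LinearIndependent V (fun j => (c j : L)) :=
    c.linearIndependent.map' D.subtype (Submodule.ker_subtype D)
  have hsm : ∀ (r : R) (x : N), ι (g (r • x)) = (1 ⊗ₜ r) * ι (g x) := by
    intro r x
    rw [map_smul, Algebra.smul_def, hr, ← hι]
  have hX : ∀ x : N, ∃ r : Fin (Module.finrank V D) → R, ι (g x) = ∑ j, (c j : L) ⊗ₜ[V] r j := by
    intro x
    have hx : x ∈ Submodule.span R (S : Set N) := by rw [hS]; trivial
    induction hx using Submodule.span_induction with
    | mem x hx =>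
      obtain ⟨y, hy⟩ := hsub ⟨x, hx, rfl⟩
      obtain ⟨r, hr'⟩ := combD D c y
      exact ⟨r, by rw [← hr']; exact hy.symm⟩
    | zero => exact ⟨0, by simp⟩
    | add x y _ _ hx hy =>
      obtain ⟨r, hr1⟩ := hx
      obtain ⟨r', hr2⟩ := hy
      refine ⟨r + r', ?_⟩
      rw [map_add, map_add, hr1, hr2, ← Finset.sum_add_distrib]
      exact Finset.sum_congr rfl (fun j _ => (TensorProduct.tmul_add _ _ _).symm)
    | smul a x _ hx =>
      obtain ⟨r, hr1⟩ := hx
      exact ⟨fun j => a * r j, by rw [hsm, hr1, mul_comb]⟩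
  choose F hF using hX
  have hadd : ∀ x y, F (x + y) = F x + F y := by
    intro x y
    refine uniq _ hlin _ _ ?_
    rw [← hF, map_add, map_add, hF x, hF y, ← Finset.sum_add_distrib]
    exact Finset.sum_congr rfl (fun j _ => (TensorProduct.tmul_add _ _ _).symm)
  have hsmul : ∀ (a : R) x, F (a • x) = fun j => a * F x j := by
    intro a x
    refine uniq _ hlin _ _ ?_
    rw [← hF, hsm, hF x, mul_comb]
  refine ⟨Module.finrank V D, fun j => P ((c j : L) ⊗ₜ 1), fun j =>
    { toFun := fun x => F x j
      map_add' := fun x y => congrFun (hadd x y) j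
      map_smul' := fun a x => congrFun (hsmul a x) j }, fun x => ?_⟩
  rw [← hP (g x), hF x, map_sum]
  refine Finset.sum_congr rfl (fun j _ => ?_)
  change P _ = P _ * algebraMap R B (F x j)
  rw [hr, ← map_mul, Algebra.TensorProduct.tmul_mul_tmul, mul_one, one_mul]

end Pool.Agent.TSP
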