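import Pool.Agent.TSP.Frob
import Pool.Agent.TSP.Soc
import Pool.Agent.TSP.RedW
import Pool.Agent.TSP.Lift
import Pool.Agent.TSP.StarB
import Pool.Agent.TSP.Dual
import Pool.Agent.TSP.Iso

/-!
# TSP-MAIN: Tachikawa's first conjecture for specialisations of graded commutative algebras
-/

set_option autoImplicit false

noncomputable section

universe u

namespace Pool.Agent.TSP

open TensorProduct CategoryTheory

variable {V R L : Type u} [CommRing V] [IsDomain V] [IsDiscreteValuationRing V] [CommRing R]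
  [Algebra V R] [Module.Finite V R] [Module.Free V R] [Field L] [Algebra V L]

/-- One factor of the generic fibre: the symmetry of the forms. -/
theorem piece (hL : Function.Injective (algebraMap V L)) (h2 : (2 : L) ≠ 0) (π : V) (h0 : π ≠ 0)
    (h1 : ¬ IsUnit π) {B : Type u} [CommRing B] [Algebra L B] [Module.Finite L B]
    (P : L ⊗[V] R →ₐ[L] B) (ι : B →ₗ[L] L ⊗[V] R) (hP : ∀ b, P (ι b) = b)
    (hι : ∀ s b, s * ι b = ι (P s * b)) (𝒜 : ℕ → Submodule L B) [GradedAlgebra 𝒜]
    (hd : ∀ a ∈ 𝒜 0, ∃ c : L, a = algebraMap L B c) (s : ℕ) (hs : ∀ i, s < i → 𝒜 i = ⊥)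
    (hv : VanE (Aq V R π) (Co V (Aq V R π) (Lq V π)) (3 * s + 2))
    (f : Co V R V →ₗ[R] R) (x y : Co V R V) (b : B) :
    gen L (f x • y - f y • x) (ι b) = 0 := by
  letI : Algebra R B := (P.toRingHom.comp
    (Algebra.TensorProduct.includeRight : R →ₐ[V] L ⊗[V] R).toRingHom).toAlgebra
  have hr : ∀ r : R, algebraMap R B r = P (1 ⊗ₜ r) := fun r => rfl
  haveI : IsNoetherianRing R := IsNoetherianRing.of_finite V R
  haveI := flatB hL P ι hP hι hr
  haveI := finW V R
  obtain ⟨q, hq⟩ := redW V R π h0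
  have h3 : VanE B (B ⊗[R] Co V R V) (3 * s + 2) :=
    van_lift (algebraMap V R π) (jac V R π h1) (regR V R π h0) (starB hL P ι hP hι hr) _
      (Co V R V) (Co V (Aq V R π) (Lq V π)) q hq (regW V R π h0) hv
  obtain ⟨Θ, hΘ⟩ := dualB P ι hP hι hr
  obtain ⟨e⟩ := core_iso h2 𝒜 hd s hs (van_iso Θ _ h3)
  have h4 := sym (Θ.trans e) f x y
  have h5 : (1 : B) ⊗ₜ[R] (f x • y - f y • x) = 0 := by
    rw [TensorProduct.tmul_sub, h4, sub_self]
  rw [← hΘ, h5, map_zero]
  rfl

theorem main (hL : Function.Injective (algebraMap V L)) (h2 : (2 : L) ≠ 0) {m : ℕ}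
    (B : Fin m → Type u) [∀ j, CommRing (B j)] [∀ j, Algebra L (B j)]
    (e : L ⊗[V] R ≃ₐ[L] ∀ j, B j) (𝒜 : ∀ j, ℕ → Submodule L (B j)) [∀ j, GradedAlgebra (𝒜 j)]
    (hd : ∀ j, ∀ a ∈ 𝒜 j 0, ∃ c : L, a = algebraMap L (B j) c) (s : ℕ)
    (hs : ∀ j i, s < i → 𝒜 j i = ⊥) (π : V) (h0 : π ≠ 0) (h1 : ¬ IsUnit π)
    (hv : ∀ I : ModuleCat.{u} (R ⧸ Ideal.span {algebraMap V R π}),
      Module.Finite (R ⧸ Ideal.span {algebraMap V R π}) I →
      Module.Injective (R ⧸ Ideal.span {algebraMap V R π}) I → ∀ i : ℕ, 0 < i → i ≤ 3 * s + 2 →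
        Subsingleton (Abelian.Ext.{u} I (ModuleCat.of _ (R ⧸ Ideal.span {algebraMap V R π})) i)) :
    Module.Injective (R ⧸ Ideal.span {algebraMap V R π})
      (R ⧸ Ideal.span {algebraMap V R π}) := by
  classical
  have hvE : VanE (Aq V R π) (Co V (Aq V R π) (Lq V π)) (3 * s + 2) := fun i hi hi' =>
    hv (ModuleCat.of _ (Co V (Aq V R π) (Lq V π))) (coi_fin V R π) (coi_inj V R π h0) i hi hi'
  haveI : IsNoetherianRing R := IsNoetherianRing.of_finite V R
  haveI := finW V R
  haveI := coi_fin V R π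
  haveI := artA V R π h0
  obtain ⟨q, hq⟩ := redW V R π h0
  -- symmetry over the valuation ring
  have hsym : ∀ (f : Co V R V →ₗ[R] R) (x y : Co V R V), f x • y = f y • x := by
    intro f x y
    rw [← sub_eq_zero]
    refine Co.ext (fun r => hL ?_)
    set z : Co V R V := f x • y - f y • x with hz
    have h4 : ∀ t : ∀ j, B j, gen L z (e.symm t) = 0 := by
      intro t
      have ht : t = ∑ j, Pi.single j (t j) := (Finset.univ_sum_single t).symm
      rw [ht, map_sum, map_sum]
      refine Finset.sum_eq_zero (fun j _ => ?_)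
      haveI : Module.Finite L (∀ j, B j) := Module.Finite.equiv e.toLinearEquiv
      haveI : Module.Finite L (B j) :=
        Module.Finite.of_surjective (LinearMap.proj j : (∀ j, B j) →ₗ[L] B j)
          (LinearMap.proj_surjective j)
      have := piece (R := R) hL h2 π h0 h1 (B := B j)
        ((Pi.evalAlgHom L B j).comp e.toAlgHom)
        (e.symm.toLinearEquiv.toLinearMap ∘ₗ LinearMap.single L B j)
        (fun b => by simp)
        (fun s b => by
          apply e.injective
          simp only [LinearMap.comp_apply, map_mul, LinearEquiv.coe_coe, AlgEquiv.toLinearEquiv_apply,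
            AlgEquiv.apply_symm_apply, LinearMap.coe_single, AlgHom.comp_apply]
          funext l
          by_cases hl : l = j
          · subst hl
            simp
          · simp [Pi.single_eq_of_ne hl])
        (𝒜 j) (hd j) s (hs j) hvE f x y (t j)
      exact this
    have h5 := h4 (e (1 ⊗ₜ r))
    rw [AlgEquiv.symm_apply_apply, gen_tmul, one_mul] at h5
    rw [h5, Co.fn_zero, map_zero]
  refine frob (coi_inj V R π h0) (coi_end V R π) (fun a ha => coi_faith V R π a ha)
    (fun 𝔪 h𝔪 => soc (fun a ha => coi_faith V R π a ha) 𝔪 h𝔪) ?_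
  intro f' x' y'
  obtain ⟨f, hf⟩ := hom_lift (algebraMap V R π) (jac V R π h1) (regR V R π h0) q hq
    (regW V R π h0) (fun i hi hi' => hvE i hi (by omega)) f'
  obtain ⟨x, rfl⟩ := hq.surj x'
  obtain ⟨y, rfl⟩ := hq.surj y'
  rw [← hf, ← hf, ← hq.smul, ← hq.smul, hsym]

end Pool.Agent.TSP
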