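import Mathlib

/-!
# TSP-QF: the quotients of a discrete valuation ring are self-injective

PLAN.  `V / (π)` is injective among the `V`-modules killed by `π`.  Zorn / Baer: Mathlib's
`Module.Baer.injective` for the ring `V / (π)`, or directly for the self-injectivity:
let `t` be a uniformiser, `π = t ^ n * unit` (`IsDiscreteValuationRing.eq_unit_mul_pow_irreducible`),
`n ≥ 1`.  Baer's criterion for `B = V / (π)`: an ideal of `B` is principal, generated by the image
of `t ^ i`, `i ≤ n` (`B` is a quotient of a PID: `IsPrincipalIdealRing.of_surjective`; each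
generator is the image of `t ^ i * unit`, or `0`).  A `B`-linear map `g` from the ideal
`(t ^ i)` to `B` sends `t ^ i` to an element `b` with `t ^ (n - i) b = 0`; writing `b` as the image
of `v : V`, `t ^ n ∣ t ^ (n - i) v`, so `t ^ i ∣ v`, `b = t ^ i b'`; `g` is the restriction of the
multiplication by `b'`.

`qf_self`: as above.  `qf`: `X` and `Y` are `V / (π)`-modules
(`Module.IsTorsionBySet.module` or `Module.quotientAnnihilator`-like; the scalar multiplication of
`V / (π)` restricts to the one of `V`), a `V`-linear map between them is `V / (π)`-linear.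
-/

set_option autoImplicit false

noncomputable section

universe u

namespace Pool.Agent.TSP

theorem qf_self (V : Type u) [CommRing V] [IsDomain V] [IsDiscreteValuationRing V] (π : V)
    (h0 : π ≠ 0) : Module.Injective (V ⧸ Ideal.span {π}) (V ⧸ Ideal.span {π}) := by
  refine Module.Baer.injective ?_
  intro I g
  haveI : IsPrincipalIdealRing (V ⧸ Ideal.span {π}) :=
    IsPrincipalIdealRing.of_surjective (Ideal.Quotient.mk (Ideal.span {π}))
      Ideal.Quotient.mk_surjective
  obtain ⟨a, rfl⟩ := (IsPrincipalIdealRing.principal I).principal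
  have ha : a ∈ Submodule.span (V ⧸ Ideal.span {π}) ({a} : Set (V ⧸ Ideal.span {π})) :=
    Submodule.mem_span_singleton_self a
  obtain ⟨α, hα⟩ := Ideal.Quotient.mk_surjective a
  obtain ⟨β, hβ⟩ := Ideal.Quotient.mk_surjective (g ⟨a, ha⟩)
  -- the value at the generator is a multiple of the generator
  obtain ⟨b', hb'⟩ : ∃ b' : V ⧸ Ideal.span {π}, g ⟨a, ha⟩ = a * b' := by
    rcases ValuationRing.dvd_total α π with ⟨γ, hγ⟩ | hπ
    · have hz : (Ideal.Quotient.mk (Ideal.span {π}) γ) •
          (⟨a, ha⟩ : Submodule.span (V ⧸ Ideal.span {π}) ({a} : Set (V ⧸ Ideal.span {π})))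
          = 0 := by
        apply Subtype.ext
        show Ideal.Quotient.mk (Ideal.span {π}) γ * a = 0
        rw [← hα, ← map_mul, Ideal.Quotient.eq_zero_iff_mem, Ideal.mem_span_singleton, hγ,
          mul_comm]
      have h1 : Ideal.Quotient.mk (Ideal.span {π}) γ * g ⟨a, ha⟩ = 0 := by
        have := g.map_smul (Ideal.Quotient.mk (Ideal.span {π}) γ) ⟨a, ha⟩
        rw [hz, map_zero, smul_eq_mul] at this
        exact this.symm
      rw [← hβ, ← map_mul, Ideal.Quotient.eq_zero_iff_mem, Ideal.mem_span_singleton] at h1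
      have hγ0 : γ ≠ 0 := by
        rintro rfl
        exact h0 (by rw [hγ, mul_zero])
      obtain ⟨δ, hδ⟩ := h1
      refine ⟨Ideal.Quotient.mk _ δ, ?_⟩
      rw [← hβ, ← hα, ← map_mul]
      congr 1
      apply mul_left_cancel₀ hγ0
      rw [hδ, hγ]
      ring
    · refine ⟨0, ?_⟩
      have ha0 : a = 0 := by
        rw [← hα, Ideal.Quotient.eq_zero_iff_mem, Ideal.mem_span_singleton]
        exact hπ
      have hz : (⟨a, ha⟩ : Submodule.span (V ⧸ Ideal.span {π})
          ({a} : Set (V ⧸ Ideal.span {π}))) = 0 := Subtype.ext ha0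
      rw [hz, map_zero, mul_zero]
  refine ⟨LinearMap.toSpanSingleton _ _ b', ?_⟩
  intro x hx
  obtain ⟨r, hr⟩ := Submodule.mem_span_singleton.mp hx
  have hx' : (⟨x, hx⟩ : Submodule.span (V ⧸ Ideal.span {π}) ({a} : Set (V ⧸ Ideal.span {π})))
      = r • ⟨a, ha⟩ := Subtype.ext hr.symm
  rw [hx', map_smul, hb', LinearMap.toSpanSingleton_apply, smul_eq_mul, smul_eq_mul, ← hr,
    smul_eq_mul, mul_assoc]

theorem qf (V : Type u) [CommRing V] [IsDomain V] [IsDiscreteValuationRing V] (π : V)
    (h0 : π ≠ 0) {X Y : Type u} [AddCommGroup X] [Module V X] [AddCommGroup Y] [Module V Y]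
    (hX : ∀ x : X, π • x = 0) (hY : ∀ y : Y, π • y = 0) (i : X →ₗ[V] Y) (hi : Function.Injective i)
    (f : X →ₗ[V] (V ⧸ Ideal.span {π})) :
    ∃ g : Y →ₗ[V] (V ⧸ Ideal.span {π}), ∀ x, g (i x) = f x := by
  have hXt : Module.IsTorsionBySet V X (Ideal.span {π} : Ideal V) :=
    (Module.isTorsionBySet_span_singleton_iff π).mpr (fun {x} => hX x)
  have hYt : Module.IsTorsionBySet V Y (Ideal.span {π} : Ideal V) :=
    (Module.isTorsionBySet_span_singleton_iff π).mpr (fun {y} => hY y)
  letI : Module (V ⧸ Ideal.span {π}) X := hXt.module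
  letI : Module (V ⧸ Ideal.span {π}) Y := hYt.module
  haveI := qf_self V π h0
  let i' : X →ₗ[V ⧸ Ideal.span {π}] Y :=
    { toFun := i
      map_add' := i.map_add
      map_smul' := by
        intro c x
        obtain ⟨v, rfl⟩ := Ideal.Quotient.mk_surjective c
        exact i.map_smul v x }
  let f' : X →ₗ[V ⧸ Ideal.span {π}] (V ⧸ Ideal.span {π}) :=
    { toFun := f
      map_add' := f.map_add
      map_smul' := by
        intro c x
        obtain ⟨v, rfl⟩ := Ideal.Quotient.mk_surjective c
        exact f.map_smul v x }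
  obtain ⟨h, hh⟩ := Module.Injective.out (R := V ⧸ Ideal.span {π}) (Q := V ⧸ Ideal.span {π})
    i' hi f'
  refine ⟨{ toFun := h, map_add' := h.map_add, map_smul' := ?_ }, fun x => hh x⟩
  intro v y
  exact h.map_smul (Ideal.Quotient.mk (Ideal.span {π}) v) y

end Pool.Agent.TSP
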