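import Pool.Agent.TSP.Defs

/-!
# TSP-STEP: reduction of a presentation modulo a regular element
-/

set_option autoImplicit false

noncomputable section

universe u

namespace Pool.Agent.TSP

theorem step {R : Type u} [CommRing R] (ϖ : R) (hR : Reg ϖ R) {W W' : Type u} [AddCommGroup W]
    [Module R W] [AddCommGroup W'] [Module (R ⧸ Ideal.span {ϖ}) W'] (q : W → W')
    (hq : IsRed ϖ q) (hW : Reg ϖ W) {n : ℕ} (p : (Fin n → R) →ₗ[R] W)
    (hp : Function.Surjective p) :
    ∃ p' : (Fin n → R ⧸ Ideal.span {ϖ}) →ₗ[R ⧸ Ideal.span {ϖ}] W', Function.Surjective p' ∧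
      (∀ x : Fin n → R, p' (fun i => Ideal.Quotient.mk _ (x i)) = q (p x)) ∧
      Reg ϖ (LinearMap.ker p) ∧
      ∃ q1 : LinearMap.ker p → LinearMap.ker p', IsRed ϖ q1 ∧
        ∀ x, (q1 x : Fin n → R ⧸ Ideal.span {ϖ}) = fun i => Ideal.Quotient.mk _ (x.1 i) := by
  classical
  have hq0 : q 0 = 0 := (AddMonoidHom.mk' q hq.add).map_zero
  have hqs : ∀ f : Fin n → W, q (∑ i, f i) = ∑ i, q (f i) := fun f =>
    map_sum (AddMonoidHom.mk' q hq.add) f Finset.univ
  have hmk : Ideal.Quotient.mk (Ideal.span {ϖ}) ϖ = 0 :=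
    Ideal.Quotient.eq_zero_iff_mem.2 (Ideal.mem_span_singleton_self ϖ)
  set p' : (Fin n → R ⧸ Ideal.span {ϖ}) →ₗ[R ⧸ Ideal.span {ϖ}] W' :=
    Fintype.linearCombination (R ⧸ Ideal.span {ϖ}) (fun i => q (p (Pi.single i 1))) with hp'
  have hpx : ∀ x : Fin n → R, p' (fun i => Ideal.Quotient.mk _ (x i)) = q (p x) := by
    intro x
    have h1 : p x = ∑ i, x i • p (Pi.single i 1) := by
      have h2 : x = ∑ i, x i • (Pi.single i (1 : R) : Fin n → R) := by
        ext j
        simp [Finset.sum_apply, Pi.single_apply]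
      conv_lhs => rw [h2]
      rw [map_sum]
      exact Finset.sum_congr rfl (fun i _ => map_smul _ _ _)
    rw [hp', Fintype.linearCombination_apply, h1, hqs]
    exact Finset.sum_congr rfl (fun i _ => (hq.smul _ _).symm)
  have hlift : ∀ a : Fin n → R ⧸ Ideal.span {ϖ}, ∃ x : Fin n → R,
      (fun i => Ideal.Quotient.mk (Ideal.span {ϖ}) (x i)) = a := by
    intro a
    choose x hx using fun i => Ideal.Quotient.mk_surjective (a i)
    exact ⟨x, funext hx⟩
  refine ⟨p', ?_, hpx, ?_, ?_⟩
  · intro w'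
    obtain ⟨w, hw⟩ := hq.surj w'
    obtain ⟨x, hx⟩ := hp w
    exact ⟨_, by rw [hpx x, hx, hw]⟩
  · intro x hx
    apply Subtype.ext
    funext i
    exact hR _ (congrFun (congrArg Subtype.val hx) i)
  · refine ⟨fun x => ⟨fun i => Ideal.Quotient.mk _ (x.1 i), ?_⟩, ⟨?_, ?_, ?_, ?_⟩, fun x => rfl⟩
    · rw [LinearMap.mem_ker, hpx, LinearMap.mem_ker.1 x.2, hq0]
    · intro x y
      apply Subtype.ext
      funext i
      exact map_add _ _ _
    · intro r x
      apply Subtype.ext
      funext i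
      exact map_mul _ _ _
    · intro a
      obtain ⟨x, hx⟩ := hlift a.1
      have h1 : q (p x) = 0 := by
        rw [← hpx, hx]
        exact a.2
      obtain ⟨w, hw⟩ := (hq.ker _).1 h1
      obtain ⟨y, hy⟩ := hp w
      refine ⟨⟨x - ϖ • y, ?_⟩, ?_⟩
      · rw [LinearMap.mem_ker, map_sub, map_smul, hy, hw, sub_self]
      · apply Subtype.ext
        funext i
        show Ideal.Quotient.mk _ (x i - ϖ * y i) = a.1 i
        rw [map_sub, map_mul, hmk, zero_mul, sub_zero]
        exact congrFun hx i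
    · intro x
      constructor
      · intro h
        have h1 : ∀ i, ∃ y, ϖ * y = x.1 i := by
          intro i
          have h2 : Ideal.Quotient.mk (Ideal.span {ϖ}) (x.1 i) = 0 :=
            congrFun (congrArg Subtype.val h) i
          rw [Ideal.Quotient.eq_zero_iff_mem, Ideal.mem_span_singleton'] at h2
          obtain ⟨y, hy⟩ := h2
          exact ⟨y, by rw [mul_comm, hy]⟩
        choose y hy using h1
        have h3 : x.1 = ϖ • y := funext (fun i => (hy i).symm)
        have h4 : p y = 0 := by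
          apply hW
          rw [← map_smul, ← h3]
          exact x.2
        exact ⟨⟨y, h4⟩, Subtype.ext h3⟩
      · rintro ⟨y, rfl⟩
        apply Subtype.ext
        funext i
        show Ideal.Quotient.mk _ (ϖ * y.1 i) = 0
        rw [map_mul, hmk, zero_mul]

end Pool.Agent.TSP
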